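import Pool.Agent.TH101.RG.ClsT

set_option autoImplicit false

/-! # The class sums of the repelling weights, in the classes modulo `W g q`

A variant of `Pool.Agent.TH101.RG.classA_t` (helper101, after helper312's team) with one further factor `g` of the
modulus. -/

open Finset Filter

namespace Pool.Agent.N610.AP

open Pool.Agent.TH101.RG
open Pool.Agent.H312R2.RG
open Pool.Agent.H378R2
open Pool.Agent.H378R2.LSBV (QQ mem_QQ)
open Pool.Agent.H256R2.SC (Col emb colr Lv emb_mem)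

/-- class sums with the weight `Phi` in the classes modulo `W g q` -/
def ClassAg {K : ℕ} (X : ℝ) (W ps g : ℕ) (t : Fin K → ℕ) (G : ℤ → ℝ) (M : ℝ) (err : ℕ → ℝ) : Prop :=
  ∀ q b : ℕ, q ∈ QQ W ps ⌊Real.exp (2 * LL X)⌋₊ →
    (∀ p : ℕ, p.Prime → p ∣ q → ∃ j, (p : ℤ) ∣ (b : ℤ) + t j) →
    |∑ n ∈ (Icc 1 ⌊3 * X⌋₊).filter (fun n => n ≡ b [MOD W * g * q]), Phi (n / X) * G n -
      M * (MPhi X * (1 / ((W : ℝ) * g))) * (1 / (q : ℝ))| ≤ err q

theorem classA_g {K : ℕ} (X : ℝ) (hX : 4 ≤ X) (t : Fin K → ℕ) (U : Finset ℕ) (ps : ℕ) (S : Finset ℕ) (y : ℝ)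
    (PP : Finset ℕ) (hPP : MedP ps y PP) (hyy : (yy X : ℝ) ≤ y) (res : ℕ → ↥U → ℤ)
    (hinj : ∀ p ∈ PP, ∀ k l, k ≠ l → ¬ ((p : ℤ) ∣ res p k - res p l))
    (htr : ∀ p ∈ PP, ∀ k j, ¬ ((p : ℤ) ∣ (t j : ℤ) + res p k)) (G : Col PP.card ↥U → ℝ) (Q₁ B₁ : ℝ) (hQ₁ : 0 ≤ Q₁)
    (hG : Lv (pP PP) Q₁ B₁ G) (g : ℕ) (hg0 : 0 < g) (hgP : ∀ p ∈ PP, ¬ p ∣ g)
    (hsize : (WW X S ps : ℝ) * g * X ^ (1 / 100 : ℝ) * Q₁ ≤ X) :
    ClassAg X (WW X S ps) ps g t (fun a => G (colr PP res a)) (Pool.Agent.H256R2.SC.EE (gP PP) G)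
      (fun q => MPhi X * (1 / (WW X S ps : ℝ)) * (1 / (q : ℝ)) *
        |Pool.Agent.H256R2.SC.EE (gP PP) (fun x => G (cut (mq PP (WW X S ps * q)) x)) -
          Pool.Agent.H256R2.SC.EE (gP PP) G| + 5 * B₁) := by
  intro q b hq hb
  rw [mem_QQ] at hq
  obtain ⟨⟨hq1, hqR⟩, hsq, hcop⟩ := hq
  set W := WW X S ps with hW
  have hWpos : 0 < W := WW_pos X S ps
  have hWr : (0 : ℝ) < W := by exact_mod_cast hWpos
  have hqr : (0 : ℝ) < q := by exact_mod_cast hq1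
  have hgr : (0 : ℝ) < g := by exact_mod_cast hg0
  have hg1 : (1 : ℝ) ≤ g := by exact_mod_cast hg0
  have hN₀ : 0 < W * g * q := Nat.mul_pos (Nat.mul_pos hWpos hg0) hq1
  have hqX : (q : ℝ) ≤ X ^ (1 / 100 : ℝ) := by
    rw [← exp_two_LL X (by linarith)]
    exact (Nat.le_floor_iff (Real.exp_pos _).le).1 hqR
  have hmq : ∀ i, i ∈ mq PP (W * q) ↔ (emb PP i : ℕ) ∣ W * g * q := by
    intro i
    unfold mq
    rw [mem_filter]
    have hp := (hPP _ (emb_mem PP i)).1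
    constructor
    · rintro ⟨_, h⟩
      exact h.trans ⟨g, by ring⟩
    · intro h
      refine ⟨mem_univ _, ?_⟩
      rcases (Nat.Prime.dvd_mul hp).1 h with h | h
      · rcases (Nat.Prime.dvd_mul hp).1 h with h | h
        · exact h.mul_right q
        · exact absurd h (hgP _ (emb_mem PP i))
      · exact h.mul_left W
  have h1 := class_phi X hX PP (fun p hp => (hPP p hp).1) res hinj (W * g * q) b hN₀ (mq PP (W * q))
    hmq
    (by
      intro i hi k hd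
      unfold mq at hi
      rw [mem_filter] at hi
      obtain ⟨hp, hyp, _⟩ := hPP _ (emb_mem PP i)
      rcases (Nat.Prime.dvd_mul hp).1 hi.2 with h | h
      · have h2 := (mem_PW.1 ((prime_dvd_WW hp).1 h)).1
        have h3 : ((emb PP i : ℕ) : ℝ) ≤ yy X := by exact_mod_cast h2
        linarith
      · obtain ⟨j, hj⟩ := hb _ hp h
        have h2 : ((emb PP i : ℕ) : ℤ) ∣ (t j : ℤ) + res (emb PP i) k := by
          have h3 := dvd_sub hj hd
          have h4 : (b : ℤ) + t j - ((b : ℤ) - res (emb PP i) k) = (t j : ℤ) + res (emb PP i) k := by ring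
          rwa [h4] at h3
        exact htr _ (emb_mem PP i) k j h2)
    G Q₁ B₁ hG (by
      push_cast
      calc (W : ℝ) * g * q * Q₁ ≤ W * g * X ^ (1 / 100 : ℝ) * Q₁ := by gcongr
        _ ≤ X := hsize)
  set Ec := Pool.Agent.H256R2.SC.EE (gP PP) (fun x => G (cut (mq PP (W * q)) x)) with hEc
  set E0 := Pool.Agent.H256R2.SC.EE (gP PP) G with hE0
  have hMnn : 0 ≤ MPhi X := by
    unfold MPhi
    exact Finset.sum_nonneg fun n _ => Phi_nonneg _
  have h2 : ((W * g * q : ℕ) : ℝ) = (W : ℝ) * g * q := by push_cast; ring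
  rw [h2] at h1
  have h3 : MPhi X * (1 / ((W : ℝ) * g * q)) = MPhi X * (1 / ((W : ℝ) * g)) * (1 / (q : ℝ)) := by
    field_simp
  rw [h3] at h1
  set P := MPhi X * (1 / ((W : ℝ) * g)) * (1 / (q : ℝ)) with hP
  have hPnn : 0 ≤ P := by rw [hP]; positivity
  have hPle : P ≤ MPhi X * (1 / (W : ℝ)) * (1 / (q : ℝ)) := by
    rw [hP]
    have h9 : (W : ℝ) ≤ W * g := le_mul_of_one_le_right hWr.le hg1
    have h10 : 1 / ((W : ℝ) * g) ≤ 1 / W := one_div_le_one_div_of_le hWr h9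
    gcongr
  have h4 : E0 * (MPhi X * (1 / ((W : ℝ) * g))) * (1 / (q : ℝ)) = P * E0 := by rw [hP]; ring
  have h5 : ∑ n ∈ (Icc 1 ⌊3 * X⌋₊).filter (fun n => n ≡ b [MOD W * g * q]), Phi (n / X) *
      (fun a => G (colr PP res a)) (n : ℤ) =
      ∑ n ∈ (Icc 1 ⌊3 * X⌋₊).filter (fun n => n ≡ b [MOD W * g * q]), Phi (n / X) *
        G (colr PP res (n : ℤ)) := rfl
  rw [h5]
  have h6 : ∑ n ∈ (Icc 1 ⌊3 * X⌋₊).filter (fun n => n ≡ b [MOD W * g * q]), Phi (n / X) *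
        G (colr PP res (n : ℤ)) - E0 * (MPhi X * (1 / ((W : ℝ) * g))) * (1 / (q : ℝ)) =
      (∑ n ∈ (Icc 1 ⌊3 * X⌋₊).filter (fun n => n ≡ b [MOD W * g * q]), Phi (n / X) *
        G (colr PP res (n : ℤ)) - P * Ec) + P * (Ec - E0) := by
    rw [h4]; ring
  rw [h6]
  refine (abs_add_le _ _).trans ?_
  rw [abs_mul, abs_of_nonneg hPnn]
  have h7 := mul_le_mul_of_nonneg_right hPle (abs_nonneg (Ec - E0))
  linarith

end Pool.Agent.N610.AP
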