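import Mathlib

set_option autoImplicit false

/-! # Residue classes of the tuple, and the Chinese remainder theorem -/

open Finset

namespace Pool.Agent.N610.AP

/-- one class for finitely many congruences -/
theorem crt_class (M0 b0 : ℕ) (T : Finset ℕ) (c : ℕ → ℕ) (hT : ∀ p ∈ T, p.Prime ∧ ¬ p ∣ M0)
    (hc : ∀ p ∈ T, c p < p) :
    ∃ b : ℕ, ∀ n : ℕ, (n ≡ b0 [MOD M0] ∧ ∀ p ∈ T, n % p = c p) ↔ n ≡ b [MOD M0 * ∏ p ∈ T, p] := by
  classical
  induction T using Finset.induction_on with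
  | empty => exact ⟨b0, fun n => by simp⟩
  | insert a T ha ih =>
    obtain ⟨b, hb⟩ := ih (fun p hp => hT p (mem_insert_of_mem hp)) (fun p hp => hc p (mem_insert_of_mem hp))
    obtain ⟨hap, haM⟩ := hT a (mem_insert_self a T)
    have hcop : Nat.Coprime (M0 * ∏ p ∈ T, p) a := by
      rw [Nat.coprime_comm, Nat.Prime.coprime_iff_not_dvd hap]
      intro h
      rcases (Nat.Prime.dvd_mul hap).1 h with h | h
      · exact haM h
      · obtain ⟨q, hq, hd⟩ := (Prime.dvd_finsetProd_iff hap.prime _).1 h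
        have := (Nat.prime_dvd_prime_iff_eq hap (hT q (mem_insert_of_mem hq)).1).1 hd
        exact ha (this ▸ hq)
    obtain ⟨k, hk1, hk2⟩ := Nat.chineseRemainder hcop b (c a)
    refine ⟨k, fun n => ?_⟩
    have hprod : M0 * ∏ p ∈ insert a T, p = (M0 * ∏ p ∈ T, p) * a := by
      rw [Finset.prod_insert ha]; ring
    rw [hprod, ← Nat.modEq_and_modEq_iff_modEq_mul hcop]
    have hca : c a < a := hc a (mem_insert_self a T)
    have h1 : n % a = c a ↔ n ≡ k [MOD a] := by
      constructor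
      · intro h
        refine Nat.ModEq.trans ?_ hk2.symm
        unfold Nat.ModEq
        rw [h, Nat.mod_eq_of_lt hca]
      · intro h
        have h2 := h.trans hk2
        unfold Nat.ModEq at h2
        rwa [Nat.mod_eq_of_lt hca] at h2
    have h2 : n ≡ b [MOD M0 * ∏ p ∈ T, p] ↔ n ≡ k [MOD M0 * ∏ p ∈ T, p] :=
      ⟨fun h => h.trans hk1.symm, fun h => h.trans hk1⟩
    rw [← h1, ← h2, ← hb n]
    constructor
    · rintro ⟨h3, h4⟩
      exact ⟨⟨h3, fun p hp => h4 p (mem_insert_of_mem hp)⟩, h4 a (mem_insert_self a T)⟩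
    · rintro ⟨⟨h3, h4⟩, h5⟩
      refine ⟨h3, fun p hp => ?_⟩
      rcases mem_insert.1 hp with rfl | hp
      · exact h5
      · exact h4 p hp

/-- the residue of `y - x` modulo `p` -/
def dres (p y x : ℕ) : ℕ := (y + (p - x % p)) % p

theorem dres_lt (p y x : ℕ) (hp : 0 < p) : dres p y x < p := Nat.mod_lt _ hp

theorem mod_eq_dres (p y x n : ℕ) (hp : 0 < p) : n % p = dres p y x ↔ (p : ℤ) ∣ (n : ℤ) + x - y := by
  unfold dres
  have hx : x % p < p := Nat.mod_lt _ hp
  have h1 : (p : ℤ) ∣ (n : ℤ) + x - y ↔ n + x ≡ y [MOD p] := by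
    rw [Nat.modEq_iff_dvd]
    constructor
    · intro h
      have := dvd_neg.2 h
      have e : -((n : ℤ) + x - y) = (y : ℤ) - ((n + x : ℕ) : ℤ) := by push_cast; ring
      rwa [e] at this
    · intro h
      have := dvd_neg.2 h
      have e : -((y : ℤ) - ((n + x : ℕ) : ℤ)) = (n : ℤ) + x - y := by push_cast; ring
      rwa [e] at this
  rw [h1]
  have h2 : x + (p - x % p) ≡ 0 [MOD p] := by
    have h3 : x + (p - x % p) ≡ x % p + (p - x % p) [MOD p] := (Nat.mod_modEq x p).symm.add_right _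
    refine h3.trans ?_
    rw [Nat.add_sub_cancel' hx.le]
    exact (Nat.modEq_zero_iff_dvd).2 dvd_rfl
  constructor
  · intro h
    have h4 : n ≡ y + (p - x % p) [MOD p] := h
    have h5 := h4.add_right x
    refine h5.trans ?_
    have h6 : y + (p - x % p) + x = y + (x + (p - x % p)) := by ring
    rw [h6]
    exact (h2.add_left y)
  · intro h
    have h5 : n + x + (p - x % p) ≡ y + (p - x % p) [MOD p] := h.add_right _
    have h6 : n + x + (p - x % p) = n + (x + (p - x % p)) := by ring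
    rw [h6] at h5
    exact (h2.add_left n).symm.trans h5

/-- the residues of the `- t l` -/
def OmA {K : ℕ} (t : Fin K → ℕ) (p : ℕ) : Finset ℕ := univ.image (fun l => dres p 0 (t l))

/-- the nonzero residues of the `t i - t l` -/
def OmB {K : ℕ} (t : Fin K → ℕ) (i : Fin K) (p : ℕ) : Finset ℕ := (univ.image (fun l => dres p (t i) (t l))).erase 0

theorem mod_mem_OmA {K : ℕ} (t : Fin K → ℕ) (p n : ℕ) (hp : 0 < p) : n % p ∈ OmA t p ↔ ∃ l, p ∣ n + t l := by
  unfold OmA
  rw [mem_image]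
  constructor
  · rintro ⟨l, _, h⟩
    refine ⟨l, ?_⟩
    have := (mod_eq_dres p 0 (t l) n hp).1 h.symm
    have e : (n : ℤ) + (t l : ℤ) - ((0 : ℕ) : ℤ) = ((n + t l : ℕ) : ℤ) := by push_cast; ring
    rw [e] at this
    exact_mod_cast this
  · rintro ⟨l, h⟩
    refine ⟨l, mem_univ _, ?_⟩
    symm
    rw [mod_eq_dres p 0 (t l) n hp]
    have e : (n : ℤ) + (t l : ℤ) - ((0 : ℕ) : ℤ) = ((n + t l : ℕ) : ℤ) := by push_cast; ring
    rw [e]
    exact_mod_cast h

theorem card_OmA_le {K : ℕ} (t : Fin K → ℕ) (p : ℕ) : (OmA t p).card ≤ K := by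
  refine card_image_le.trans ?_
  rw [card_univ, Fintype.card_fin]

theorem card_OmB_le {K : ℕ} (t : Fin K → ℕ) (i : Fin K) (p : ℕ) : (OmB t i p).card ≤ K := by
  refine (card_erase_le).trans (card_image_le.trans ?_)
  rw [card_univ, Fintype.card_fin]

theorem dres_shift (p y x : ℕ) (hp : 0 < p) : dres p y x = (dres p 0 x + y) % p := by
  unfold dres
  rw [zero_add]
  have h : (p - x % p) % p + y ≡ (p - x % p) + y [MOD p] := (Nat.mod_modEq _ p).add_right y
  have h2 : ((p - x % p) % p + y) % p = ((p - x % p) + y) % p := h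
  rw [h2, Nat.add_comm]

/-- the two numbers of classes -/
theorem card_OmA_eq {K : ℕ} (t : Fin K → ℕ) (i : Fin K) (p : ℕ) (hp : 0 < p) :
    (OmA t p).card = (OmB t i p).card + 1 := by
  classical
  have h0 : (0 : ℕ) ∈ univ.image (fun l => dres p (t i) (t l)) := by
    rw [mem_image]
    refine ⟨i, mem_univ _, ?_⟩
    have h1 : 0 % p = dres p (t i) (t i) := by
      rw [mod_eq_dres p (t i) (t i) 0 hp]
      simp
    rw [← h1, Nat.zero_mod]
  unfold OmB
  rw [card_erase_of_mem h0]
  have h1 : univ.image (fun l => dres p (t i) (t l)) = (OmA t p).image (fun a => (a + t i) % p) := by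
    unfold OmA
    rw [image_image]
    apply image_congr
    intro l _
    exact dres_shift p (t i) (t l) hp
  have h2 : ((OmA t p).image (fun a => (a + t i) % p)).card = (OmA t p).card := by
    apply card_image_of_injOn
    intro a ha b hb hab
    have ha' : a < p := by
      have := mem_coe.1 ha
      unfold OmA at this
      rw [mem_image] at this
      obtain ⟨l, _, rfl⟩ := this
      exact dres_lt p 0 _ hp
    have hb' : b < p := by
      have := mem_coe.1 hb
      unfold OmA at this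
      rw [mem_image] at this
      obtain ⟨l, _, rfl⟩ := this
      exact dres_lt p 0 _ hp
    have h3 : a + t i ≡ b + t i [MOD p] := hab
    have h4 : a ≡ b [MOD p] := Nat.ModEq.add_right_cancel' _ h3
    exact Nat.ModEq.eq_of_lt_of_lt h4 ha' hb'
  have hpos : 0 < (OmA t p).card := card_pos.2 ⟨dres p 0 (t i), mem_image_of_mem _ (mem_univ i)⟩
  rw [h1, h2]
  omega

theorem mem_OmB {K : ℕ} (t : Fin K → ℕ) (i : Fin K) (p a : ℕ) (hp : 0 < p) (ha : a ∈ OmB t i p) :
    a ≠ 0 ∧ a < p ∧ ∃ l, l ≠ i ∧ a = dres p (t i) (t l) := by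
  unfold OmB at ha
  rw [mem_erase, mem_image] at ha
  obtain ⟨h0, l, _, rfl⟩ := ha
  refine ⟨h0, dres_lt p _ _ hp, l, ?_, rfl⟩
  rintro rfl
  apply h0
  have h1 : 0 % p = dres p (t l) (t l) := by
    rw [mod_eq_dres p (t l) (t l) 0 hp]
    simp
  rw [← h1, Nat.zero_mod]

theorem mod_mem_OmB {K : ℕ} (t : Fin K → ℕ) (i : Fin K) (p n : ℕ) (hp : 0 < p) (hn : ¬ p ∣ n + t i) :
    (n + t i) % p ∈ OmB t i p ↔ ∃ l, p ∣ n + t l := by
  unfold OmB
  rw [mem_erase, mem_image]
  have h0 : (n + t i) % p ≠ 0 := fun h => hn (Nat.dvd_of_mod_eq_zero h)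
  have key : ∀ l, (n + t i) % p = dres p (t i) (t l) ↔ p ∣ n + t l := by
    intro l
    rw [mod_eq_dres p (t i) (t l) (n + t i) hp]
    have e : ((n + t i : ℕ) : ℤ) + (t l : ℤ) - (t i : ℤ) = ((n + t l : ℕ) : ℤ) := by push_cast; ring
    rw [e]
    exact_mod_cast Iff.rfl
  constructor
  · rintro ⟨_, l, _, h⟩
    exact ⟨l, (key l).1 h.symm⟩
  · rintro ⟨l, h⟩
    exact ⟨h0, l, mem_univ _, ((key l).2 h).symm⟩

/-- divisors and totient of a product of distinct primes -/
theorem prod_primes (T : Finset ℕ) (hT : ∀ p ∈ T, p.Prime) :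
    (∏ p ∈ T, p).divisors.card = 2 ^ T.card ∧ (∏ p ∈ T, p).totient = ∏ p ∈ T, (p - 1) := by
  classical
  induction T using Finset.induction_on with
  | empty => simp
  | insert a T ha ih =>
    obtain ⟨h1, h2⟩ := ih fun p hp => hT p (mem_insert_of_mem hp)
    have hap := hT a (mem_insert_self a T)
    have hcop : Nat.Coprime a (∏ p ∈ T, p) := by
      rw [Nat.coprime_prod_right_iff]
      intro q hq
      exact (Nat.coprime_primes hap (hT q (mem_insert_of_mem hq))).2 (fun h => ha (h ▸ hq))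
    rw [prod_insert ha, prod_insert ha, card_insert_of_notMem ha, Nat.totient_mul hcop, h2, Nat.totient_prime hap,
      hcop.card_divisors_mul, h1, hap.divisors, card_pair hap.one_lt.ne]
    exact ⟨by ring, rfl⟩

theorem prod_primes_sqfree (T : Finset ℕ) (hT : ∀ p ∈ T, p.Prime) : Squarefree (∏ p ∈ T, p) := by
  apply Finset.squarefree_prod_of_pairwise_isCoprime
  · intro p hp q hq hpq
    exact Nat.coprime_iff_isRelPrime.mp ((Nat.coprime_primes (hT p (by simpa using hp)) (hT q (by simpa using hq))).2 hpq)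
  · intro p hp
    exact (hT p hp).squarefree

theorem totient_primes (T : Finset ℕ) (hT : ∀ p ∈ T, p.Prime) :
    (((∏ p ∈ T, p).totient : ℕ) : ℝ) = ∏ p ∈ T, ((p : ℝ) - 1) := by
  rw [(prod_primes T hT).2]
  push_cast
  apply Finset.prod_congr rfl
  intro p hp
  rw [Nat.cast_sub (hT p hp).one_lt.le]
  simp

end Pool.Agent.N610.AP
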