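import Pool.Agent.N610.AP.Num
import Pool.Agent.TH101.RG.Tup

set_option autoImplicit false
set_option maxHeartbeats 4000000

/-! # A prime with almost prime neighbours: the sieve with the repelling weights -/

open Finset Filter

namespace Pool.Agent.N610.AP

open Pool.Agent.H312R2.RG
open Pool.Agent.H378R2
open Pool.Agent.H378R2.LSBV (QQ mem_QQ)
open Pool.Agent.TH101.RG (small_mem_PW)

theorem err_one_le' {K : ℕ} (X : ℝ) (W ps : ℕ) (err : ℕ → ℝ) (h0 : ∀ q, 0 ≤ err q) (hX : 1 ≤ X) :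
    err 1 ≤ tot K X W ps err := by
  unfold tot
  have h1 : (1 : ℕ) ∈ QQ W ps ⌊Real.exp (2 * LL X)⌋₊ := by
    rw [mem_QQ]
    refine ⟨⟨le_rfl, Nat.le_floor ?_⟩, squarefree_one, Nat.coprime_one_left _⟩
    push_cast
    apply Real.one_le_exp
    unfold LL
    have := Real.log_nonneg hX
    linarith
  have h2 := Finset.single_le_sum (f := fun q : ℕ => (q.divisors.card : ℝ) ^ (2 * K) * err q)
    (fun q _ => mul_nonneg (by positivity) (h0 q)) h1
  simp only [Nat.divisors_one, card_singleton, Nat.cast_one, one_pow, one_mul] at h2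
  exact h2

open Classical in
/-- the engine -/
theorem engineAP (K : ℕ) (hK : 1 ≤ K) : ∃ (δ : ℝ) (Z B : ℕ), 0 < δ ∧ 4 ≤ Z ∧ ∀ᶠ X : ℝ in atTop,
    ∀ (ps : ℕ) (S : Finset ℕ), GoodP Z ps → GoodS X S →
    ∀ t : Fin K → ℕ, (∀ j, (t j : ℝ) ≤ (Real.log X) ^ 2) →
    ∀ (i : Fin K) (r : ℕ), (∀ j, (r + t j).Coprime (WW X S ps)) →
    ∀ (V T : ℤ → ℝ) (Z₁ M M' M₂ : ℝ) (e₁ e₂ e₃ : ℕ → ℝ),
    (∀ a, 0 ≤ V a ∧ V a ≤ X ^ (1 / 100 : ℝ)) → (∀ a, 0 ≤ T a) →
    1 ≤ Z₁ → 3 / 4 * Z₁ ≤ M → 3 / 4 * M ≤ M' → M₂ ≤ Z₁ / (Real.log X) ^ B →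
    (∀ q, 0 ≤ e₁ q ∧ 0 ≤ e₂ q ∧ 0 ≤ e₃ q) →
    (ps.Prime → (ps : ℝ) ≤ X ^ (1 / 100 : ℝ) → ClassAg X (WW X S ps) ps ps t V M e₁) →
    ClassA X (WW X S ps) ps t (fun a => V a * T a) M₂ e₂ →
    ClassB X (WW X S ps) ps t i V M' e₃ →
    tot K X (WW X S ps) ps e₁ ≤ Z₁ * (X / ((WW X S ps : ℝ) * (Real.log X) ^ B)) →
    tot K X (WW X S ps) ps e₂ ≤ Z₁ * (X / ((WW X S ps : ℝ) * (Real.log X) ^ B)) →
    tot K X (WW X S ps) ps e₃ ≤ Z₁ * (X / ((WW X S ps : ℝ) * (Real.log X) ^ B)) →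
    ∀ bad : Finset ℕ, (bad.card : ℝ) ≤ X ^ (9 / 10 : ℝ) →
    ∃ n : ℕ, X < n ∧ (n : ℝ) ≤ 3 * X ∧ n ∉ bad ∧ n ≡ r [MOD WW X S ps] ∧ T n < 1 ∧ (n + t i).Prime ∧
      ∀ j, ∀ p : ℕ, p.Prime → p ∣ n + t j → X ^ δ < (p : ℝ) := by
  obtain ⟨C0B, hC0B, HB⟩ := siftB K
  obtain ⟨C0A, hC0A, HA⟩ := siftA K
  obtain ⟨cL, hcL, Hlow⟩ := prod_lower K
  obtain ⟨CM, hCM, Hup⟩ := prod_upper
  obtain ⟨b, hb⟩ : ∃ b : ℕ, b = max (max C0B C0A) 2 := ⟨_, rfl⟩
  have hbB : C0B ≤ b := by rw [hb]; exact (le_max_left _ _).trans (le_max_left _ _)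
  have hbA : C0A ≤ b := by rw [hb]; exact (le_max_right _ _).trans (le_max_left _ _)
  have hb2 : 2 ≤ b := by rw [hb]; exact le_max_right _ _
  obtain ⟨E, hE⟩ : ∃ E : ℕ, E = b * b := ⟨_, rfl⟩
  have hE1 : 1 ≤ E := by rw [hE]; nlinarith
  have hEr : (1 : ℝ) ≤ E := by exact_mod_cast hE1
  have hEB : C0B * b ≤ E := by rw [hE]; exact Nat.mul_le_mul_right _ hbB
  have hEA : C0A * b ≤ E := by rw [hE]; exact Nat.mul_le_mul_right _ hbA
  obtain ⟨Z, hZ⟩ : ∃ Z : ℕ, Z = max (max b (4 * K + 4)) ⌈3200000 * E * K * CM⌉₊ := ⟨_, rfl⟩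
  have hZb : b ≤ Z := by rw [hZ]; exact (le_max_left _ _).trans (le_max_left _ _)
  have hZK : 4 * K + 4 ≤ Z := by rw [hZ]; exact (le_max_right _ _).trans (le_max_left _ _)
  have hZC : 3200000 * (E : ℝ) * K * CM ≤ Z := by
    refine (Nat.le_ceil _).trans ?_
    rw [hZ]
    exact_mod_cast le_max_right _ _
  have hKr : (1 : ℝ) ≤ K := by exact_mod_cast hK
  refine ⟨1 / (200 * E), Z, 4 * K + 4, by positivity, by omega, ?_⟩
  have t1 := Real.tendsto_log_atTop
  have t2 : Tendsto (fun y : ℝ => Real.log (Real.log y)) atTop atTop := t1.comp t1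
  filter_upwards [exists_J E hE1, final_num K cL hcL, LPhi_ge, eventually_ge_atTop 40,
    t1.eventually_ge_atTop 100, t1.eventually_ge_atTop (1000 * Z), t2.eventually_ge_atTop (Z + 1)]
    with X hJX hnum hLP hX40 hL100 hLZ hL2Z
  intro ps S hps hS t ht i r hr V T Z₁ M M' M₂ e₁ e₂ e₃ hV hT hZ1 hM hM' hM₂ he hAg hA hB ht1 ht2 ht3 bad hbad
  obtain ⟨J, hJ1, hJ2, hJ3, hJ4, hJ5, hJ6, hJ7⟩ := hJX
  set L := Real.log X with hL
  set W := WW X S ps with hW
  set B := 4 * K + 4 with hBd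
  have hX0 : 0 < X := by linarith
  have hX4 : 4 ≤ X := by linarith
  have hL0 : 0 < L := by linarith
  have hWpos : 0 < W := WW_pos X S ps
  have hWr : (0 : ℝ) < W := by exact_mod_cast hWpos
  have hWle := WW_le X (by linarith) S ps
  rw [← hW, ← hL] at hWle
  have hφ0 : (0 : ℝ) < W.totient := by exact_mod_cast Nat.totient_pos.2 hWpos
  have hφW : (W.totient : ℝ) ≤ W := by exact_mod_cast Nat.totient_le W
  have hps' : ps = 1 ∨ ps.Prime := by
    rcases hps with h | h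
    · exact Or.inl h
    · exact Or.inr h.1
  set P := PZ X S ps J with hP
  have hPZ : ∀ p ∈ P, Z < p := by
    intro p hp
    by_contra h
    push Not at h
    exact (mem_PZ.1 hp).2.2.1 (small_mem_PW hLZ hL2Z hps le_rfl hS (mem_PZ.1 hp).1 h)
  -- sizes of the pieces
  obtain ⟨z, hz⟩ : ∃ z : ℕ, z = 2 ^ 2 ^ J := ⟨_, rfl⟩
  rw [← hz] at hJ3 hJ4 hJ5 hJ7
  have hz4 : 4 ≤ z := by
    rw [hz]
    calc 4 = 2 ^ 2 ^ 1 := by norm_num
      _ ≤ 2 ^ 2 ^ J := Nat.pow_le_pow_right (by norm_num) (Nat.pow_le_pow_right (by norm_num) hJ1)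
  have hzr : (4 : ℝ) ≤ z := by exact_mod_cast hz4
  have hlz0 : 0 < Real.log z := Real.log_pos (by linarith)
  have hJB : ((2 ^ 2 ^ J) ^ (C0B * b) : ℕ) ≤ ⌊Real.exp (2 * LL X)⌋₊ :=
    (Nat.pow_le_pow_right (by positivity) hEB).trans hJ2
  have hJA : ((2 ^ 2 ^ J) ^ (C0A * b) : ℕ) ≤ ⌊Real.exp (2 * LL X)⌋₊ :=
    (Nat.pow_le_pow_right (by positivity) hEA).trans hJ2
  have hzX : (z : ℝ) < X := by
    refine hJ7.trans_lt ?_
    calc X ^ (1 / 100 : ℝ) < X ^ (1 : ℝ) := Real.rpow_lt_rpow_of_exponent_lt (by linarith) (by norm_num)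
      _ = X := Real.rpow_one X
  have hMP := MPhi_ge X hX40
  have hMPle := MPhi_le X hX4
  have hMP0 : 0 ≤ MPhi X := by linarith
  have hLP0 : 0 ≤ LPhi X := by linarith
  have hLPM : MPhi X / 400 ≤ LPhi X := by linarith
  have hM0 : 0 ≤ M := by linarith
  have hM'0 : 0 ≤ M' := by linarith
  set PB := ∏ p ∈ P, (1 - ((OmB t i p).card : ℝ) * (1 / ((p : ℝ) - 1))) with hPB
  have hPBlow : cL / (Real.log z) ^ (4 * K) ≤ PB := by
    apply Hlow z P (fun p => (OmB t i p).card) (by omega)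
    · intro p hp
      refine ⟨(mem_PZ.1 hp).1, ?_, ?_⟩
      · have := hPZ p hp
        omega
      · rw [hz]; exact (mem_PZ.1 hp).2.1
    · intro p _
      exact card_OmB_le t i p
  have hPB0 : 0 < PB := lt_of_lt_of_le (by positivity) hPBlow
  set N := M * MPhi X * PB / W.totient with hN
  have hN0 : 0 ≤ N := by rw [hN]; positivity
  have hkey := hnum W W.totient Z₁ M (MPhi X) PB (Real.log z) hφ0 hφW hWle hZ1 hM hMP hlz0 hJ5 hPBlow
  rw [← hN] at hkey
  set Er := Z₁ * (X / ((W : ℝ) * L ^ B)) with hEr'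
  have hEr0 : 0 ≤ Er := by rw [hEr']; positivity
  -- the logarithm
  set ℓ := Real.log (4 * X) with hℓ
  have hℓ0 : 0 ≤ ℓ := Real.log_nonneg (by linarith)
  have hℓL : ℓ ≤ 2 * L := by
    rw [hℓ, Real.log_mul (by norm_num) hX0.ne']
    have : Real.log 4 ≤ Real.log X := Real.log_le_log (by norm_num) hX4
    linarith
  set N3 := ⌊3 * X⌋₊ with hN3
  have hN3le : (N3 : ℝ) ≤ 3 * X := Nat.floor_le (by linarith)
  have hVX : ∀ a, |V a| ≤ X ^ (1 / 100 : ℝ) := fun a => by rw [abs_of_nonneg (hV a).1]; exact (hV a).2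
  -- (1) the primes
  have hb4 : (1 / 2 : ℝ) ^ b ≤ 1 / 4 := by
    calc (1 / 2 : ℝ) ^ b ≤ (1 / 2) ^ 2 := pow_le_pow_of_le_one (by norm_num) (by norm_num) hb2
      _ = 1 / 4 := by norm_num
  set Pf : ℕ → ℝ := fun m => if ∀ p ∈ P, m % p ∉ OmB t i p then V ((m : ℤ) - t i) else 0 with hPf
  have hPfle : ∀ m, |Pf m| ≤ X ^ (1 / 100 : ℝ) := by
    intro m
    simp only [hPf]
    split_ifs
    · exact hVX _
    · rw [abs_zero]; positivity
  have htX : (t i : ℝ) ≤ X / 2 := by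
    have h1 := ht i
    have h2 : 4 * L ^ 2 ≤ X := by
      have h3 : L ^ 4 / 24 ≤ Real.exp L := by
        have := Real.pow_div_factorial_le_exp L hL0.le 4
        simpa [Nat.factorial] using this
      rw [show Real.exp L = X from Real.exp_log hX0] at h3
      have h4 : (96 : ℝ) ≤ L ^ 2 := by nlinarith
      nlinarith [sq_nonneg L]
    linarith
  have hshift := shift_bound X hX4 W r (t i) htX Pf (X ^ (1 / 100 : ℝ)) hPfle
  have hsB := HB b J X ps S hbB hps' (fun p hp => lt_of_le_of_lt (hbB.trans hZb) (hPZ p hp)) hJB t i r (hr i) V M' e₃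
    (fun a => (hV a).1) hM'0 (fun q => (he q).2.2) hB
  have hsumB : ∑ n ∈ Icc 1 N3, (if n ≡ r + t i [MOD W] then Phi (n / X) * ArithmeticFunction.vonMangoldt n else 0) * Pf n =
      ∑ n ∈ ((Icc 1 ⌊3 * X⌋₊).filter (fun n => n ≡ r + t i [MOD W])).filter
        (fun n => ∀ p ∈ P, n % p ∉ OmB t i p),
        Phi (n / X) * ArithmeticFunction.vonMangoldt n * V ((n : ℤ) - t i) := by
    rw [filter_filter, sum_filter]
    apply sum_congr rfl
    intro n _
    simp only [hPf]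
    by_cases h1 : n ≡ r + t i [MOD W]
    · by_cases h2 : ∀ p ∈ P, n % p ∉ OmB t i p
      · rw [if_pos h1, if_pos h2, if_pos ⟨h1, h2⟩]
      · rw [if_neg h2, if_neg (fun h : n ≡ r + t i [MOD W] ∧ ∀ p ∈ P, n % p ∉ OmB t i p => h2 h.2), mul_zero]
    · rw [if_neg h1, if_neg (fun h : n ≡ r + t i [MOD W] ∧ ∀ p ∈ P, n % p ∉ OmB t i p => h1 h.1), zero_mul]
  rw [hsumB] at hshift
  set SB := ∑ n ∈ ((Icc 1 ⌊3 * X⌋₊).filter (fun n => n ≡ r + t i [MOD W])).filter
        (fun n => ∀ p ∈ P, n % p ∉ OmB t i p),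
        Phi (n / X) * ArithmeticFunction.vonMangoldt n * V ((n : ℤ) - t i) with hSB
  set S1 := ∑ n ∈ Icc 1 N3, nu X W r n * th (n + t i) * Pf (n + t i) with hS1
  have h1low : 9 / 6400 * N - 2 * L * Er - X ^ (1 / 100 : ℝ) * ((4 * t i) * ℓ + 4 * Real.sqrt X * ℓ) ≤ S1 := by
    have e1 := (abs_le.1 hshift).1
    have e2 := (abs_le.1 hsB).1
    have e3 : 3 / 1600 * N ≤ M' * (LPhi X * (1 / W.totient)) * PB := by
      have e4 : 3 / 1600 * N = (3 / 4 * M) * (MPhi X / 400 * (1 / W.totient)) * PB := by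
        rw [hN]; ring
      rw [e4]
      gcongr
    set AB := M' * (LPhi X * (1 / W.totient)) * PB with hAB
    have hAB0 : 0 ≤ AB := by positivity
    have e5 : (1 / 2 : ℝ) ^ b * AB ≤ 1 / 4 * AB := mul_le_mul_of_nonneg_right hb4 hAB0
    have e6 : ((J : ℝ) + 2) * tot K X W ps e₃ ≤ 2 * L * Er := mul_le_mul hJ6 ht3 (by
      unfold tot
      exact sum_nonneg fun q _ => mul_nonneg (by positivity) (he q).2.2) (by positivity)
    linarith
  -- (2) the exceptional prime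
  set RA : ℕ → Prop := fun n => ∀ p ∈ P, n % p ∉ OmA t p with hRA
  set S2 : Fin K → ℝ := fun j => ∑ n ∈ Icc 1 N3,
    nu X W r n * V n * (if (ps.Prime ∧ (ps : ℝ) ≤ X ^ (1 / 100 : ℝ)) ∧ ps ∣ n + t j ∧ RA n then 1 else 0) with hS2
  have h2up : ∀ j, 2 * L * S2 j ≤ 1 / (6400 * K) * N + 4 * L ^ 2 * Er := by
    intro j
    by_cases hpr : ps.Prime ∧ (ps : ℝ) ≤ X ^ (1 / 100 : ℝ)
    · obtain ⟨hpp, hpX⟩ := hpr
      have hpsZ : Z < ps := by
        rcases hps with h | h
        · rw [h] at hpp; exact absurd hpp Nat.not_prime_one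
        · exact h.2
      have hpsW : ¬ ps ∣ W := fun hd => (mem_PW.1 ((prime_dvd_WW hpp).1 hd)).2.2.2 rfl
      obtain ⟨b₀, hb₀⟩ := crt_class W r {ps} (fun p => dres p 0 (t j))
        (fun p hp => by rw [mem_singleton] at hp; rw [hp]; exact ⟨hpp, hpsW⟩)
        (fun p hp => by rw [mem_singleton] at hp; rw [hp]; exact dres_lt _ _ _ hpp.pos)
      rw [prod_singleton] at hb₀
      have hsA := HA b J X ps S hbA hpp (fun p hp => lt_of_le_of_lt (hbA.trans hZb) (hPZ p hp)) hJA t b₀ V M e₁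
        (fun a => (hV a).1) hM0 (fun q => (he q).1) (hAg hpp hpX)
      have heq : S2 j = ∑ n ∈ ((Icc 1 ⌊3 * X⌋₊).filter (fun n => n ≡ b₀ [MOD W * ps])).filter
          (fun n => ∀ p ∈ P, n % p ∉ OmA t p), Phi (n / X) * V (n : ℤ) := by
        simp only [hS2]
        rw [filter_filter, sum_filter]
        apply sum_congr rfl
        intro n _
        have hdv : n % ps = dres ps 0 (t j) ↔ ps ∣ n + t j := by
          rw [mod_eq_dres ps 0 (t j) n hpp.pos]
          have e : (n : ℤ) + (t j : ℤ) - ((0 : ℕ) : ℤ) = ((n + t j : ℕ) : ℤ) := by push_cast; ring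
          rw [e]
          exact_mod_cast Iff.rfl
        have hcl : n ≡ b₀ [MOD W * ps] ↔ (n ≡ r [MOD W] ∧ ps ∣ n + t j) := by
          rw [← hb₀ n]
          simp only [mem_singleton, forall_eq]
          rw [hdv]
        unfold nu
        by_cases h1 : n ≡ r [MOD W]
        · by_cases h2 : ps ∣ n + t j
          · by_cases h3 : RA n
            · rw [if_pos h1, if_pos ⟨⟨hpp, hpX⟩, h2, h3⟩, if_pos ⟨hcl.2 ⟨h1, h2⟩, h3⟩, mul_one]
            · rw [if_neg (fun h : (ps.Prime ∧ (ps : ℝ) ≤ X ^ (1 / 100 : ℝ)) ∧ ps ∣ n + t j ∧ RA n => h3 h.2.2),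
                if_neg (fun h : n ≡ b₀ [MOD W * ps] ∧ ∀ p ∈ P, n % p ∉ OmA t p => h3 h.2), mul_zero]
          · rw [if_neg (fun h : (ps.Prime ∧ (ps : ℝ) ≤ X ^ (1 / 100 : ℝ)) ∧ ps ∣ n + t j ∧ RA n => h2 h.2.1),
              if_neg (fun h : n ≡ b₀ [MOD W * ps] ∧ ∀ p ∈ P, n % p ∉ OmA t p => h2 (hcl.1 h.1).2), mul_zero]
        · rw [if_neg h1, if_neg (fun h : n ≡ b₀ [MOD W * ps] ∧ ∀ p ∈ P, n % p ∉ OmA t p => h1 (hcl.1 h.1).1), zero_mul, zero_mul]
      rw [heq]
      have hprodA : ∏ p ∈ P, (1 - ((OmA t p).card : ℝ) * (1 / (p : ℝ))) = (∏ p ∈ P, (1 - 1 / (p : ℝ))) * PB := by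
        rw [hPB, ← Finset.prod_mul_distrib]
        apply Finset.prod_congr rfl
        intro p hp
        exact dens_id t i p (mem_PZ.1 hp).1
      rw [← hP, hprodA] at hsA
      have hup := Hup X S ps J hJ1 (by rw [← hz]; exact hJ3)
      rw [← hP, ← hW, ← hz] at hup
      set PU := ∏ p ∈ P, (1 - 1 / (p : ℝ)) with hPU
      have hPU' : PU ≤ W / W.totient * (CM / Real.log z) := by
        rw [div_mul_eq_mul_div, le_div_iff₀ hφ0]
        linarith
      have hps0 : (0 : ℝ) < ps := by exact_mod_cast hpp.pos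
      have hPUnn : 0 ≤ PU := by
        rw [hPU]
        apply Finset.prod_nonneg
        intro p hp
        have h1 : (1 : ℝ) ≤ p := by exact_mod_cast (mem_PZ.1 hp).1.one_lt.le
        rw [sub_nonneg, div_le_one (by linarith)]
        exact h1
      have hA1 : M * (MPhi X * (1 / ((W : ℝ) * ps))) * (PU * PB) ≤ 200 * E * CM / (ps * L) * N := by
        have e1 : CM / Real.log z ≤ CM * (200 * E) / L := by
          rw [div_le_div_iff₀ hlz0 hL0]
          rw [div_lt_iff₀ (by positivity)] at hJ4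
          have := mul_le_mul_of_nonneg_left hJ4.le hCM.le
          linarith
        calc M * (MPhi X * (1 / ((W : ℝ) * ps))) * (PU * PB) ≤
              M * (MPhi X * (1 / ((W : ℝ) * ps))) * ((W / W.totient * (CM * (200 * E) / L)) * PB) := by
              apply mul_le_mul_of_nonneg_left _ (by positivity)
              apply mul_le_mul_of_nonneg_right _ hPB0.le
              refine hPU'.trans ?_
              apply mul_le_mul_of_nonneg_left e1 (by positivity)
          _ = 200 * E * CM / (ps * L) * N := by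
              rw [hN]
              field_simp
      have hpsC : 3200000 * (E : ℝ) * K * CM ≤ ps := by
        have : (Z : ℝ) ≤ ps := by exact_mod_cast hpsZ.le
        linarith
      have hA2 : 2 * L * ((1 + (1 / 2 : ℝ) ^ b) * (200 * E * CM / (ps * L) * N)) ≤ 1 / (6400 * K) * N := by
        have e1 : (1 + (1 / 2 : ℝ) ^ b) ≤ 5 / 4 := by linarith
        have e2 : 0 ≤ 200 * E * CM / (ps * L) * N := by positivity
        have e3 : 2 * L * ((1 + (1 / 2 : ℝ) ^ b) * (200 * E * CM / (ps * L) * N)) ≤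
            2 * L * (5 / 4 * (200 * E * CM / (ps * L) * N)) := by gcongr
        refine e3.trans ?_
        have e4 : 2 * L * (5 / 4 * (200 * E * CM / (ps * L) * N)) = 500 * E * CM / ps * N := by
          field_simp
          ring
        rw [e4]
        apply mul_le_mul_of_nonneg_right _ hN0
        rw [div_le_div_iff₀ hps0 (by positivity)]
        linarith
      have e6 : ((J : ℝ) + 2) * tot K X W ps e₁ ≤ 2 * L * Er := mul_le_mul hJ6 ht1 (by
        unfold tot
        exact sum_nonneg fun q _ => mul_nonneg (by positivity) (he q).1) (by positivity)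
      have e7 : (1 + (1 / 2 : ℝ) ^ b) * (M * (MPhi X * (1 / ((W : ℝ) * ps))) * (PU * PB)) ≤
          (1 + (1 / 2 : ℝ) ^ b) * (200 * E * CM / (ps * L) * N) :=
        mul_le_mul_of_nonneg_left hA1 (by positivity)
      have e8 : ∑ n ∈ ((Icc 1 ⌊3 * X⌋₊).filter (fun n => n ≡ b₀ [MOD W * ps])).filter
          (fun n => ∀ p ∈ P, n % p ∉ OmA t p), Phi (n / X) * V (n : ℤ) ≤
          (1 + (1 / 2 : ℝ) ^ b) * (200 * E * CM / (ps * L) * N) + 2 * L * Er := by linarith
      refine (mul_le_mul_of_nonneg_left e8 (by positivity)).trans ?_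
      calc 2 * L * ((1 + (1 / 2 : ℝ) ^ b) * (200 * E * CM / (ps * L) * N) + 2 * L * Er)
          = 2 * L * ((1 + (1 / 2 : ℝ) ^ b) * (200 * E * CM / (ps * L) * N)) + 4 * L ^ 2 * Er := by ring
        _ ≤ _ := by linarith
    · have h0 : S2 j = 0 := by
        simp only [hS2]
        apply sum_eq_zero
        intro n _
        rw [if_neg (fun h => hpr h.1), mul_zero]
      rw [h0, mul_zero]
      positivity
  -- (3) the uncovered points
  set S3 := ∑ n ∈ Icc 1 N3, nu X W r n * V n * T n with hS3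
  have h3up : S3 ≤ 3 * Er := by
    have e1 := hA 1 r (by
      rw [mem_QQ]
      refine ⟨⟨le_rfl, Nat.le_floor ?_⟩, squarefree_one, Nat.coprime_one_left _⟩
      push_cast
      apply Real.one_le_exp
      unfold LL
      linarith) (by
      intro p hp h1
      exact absurd (Nat.dvd_one.1 h1) hp.one_lt.ne')
    have e2 : ∑ n ∈ (Icc 1 ⌊3 * X⌋₊).filter (fun n => n ≡ r [MOD W * 1]), Phi (n / X) * (V n * T n) = S3 := by
      rw [mul_one, sum_filter, hS3]
      apply sum_congr rfl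
      intro n _
      unfold nu
      split_ifs <;> ring
    have e3 := (abs_le.1 e1).2
    simp only [] at e3
    rw [e2] at e3
    have e4 := err_one_le' (K := K) X W ps e₂ (fun q => (he q).2.1) (by linarith)
    have e5 : M₂ * (MPhi X * (1 / (W : ℝ))) * (1 / ((1 : ℕ) : ℝ)) ≤ 2 * Er := by
      push_cast
      rw [div_one, mul_one]
      calc M₂ * (MPhi X * (1 / (W : ℝ))) ≤ (Z₁ / L ^ B) * ((2 * X) * (1 / (W : ℝ))) := by
            apply mul_le_mul hM₂ _ (by positivity) (by positivity)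
            gcongr
        _ = 2 * Er := by rw [hEr']; field_simp
    linarith
  -- (4) the bad set
  set S4 := ∑ n ∈ Icc 1 N3, nu X W r n * V n * (if n ∈ bad then 1 else 0) with hS4
  have h4up : S4 ≤ X ^ (1 / 100 : ℝ) * X ^ (9 / 10 : ℝ) := by
    have e1 : S4 ≤ ∑ n ∈ (Icc 1 N3).filter (fun n => n ∈ bad), X ^ (1 / 100 : ℝ) := by
      rw [sum_filter, hS4]
      apply sum_le_sum
      intro n _
      split_ifs
      · rw [mul_one]
        have h1 : nu X W r n ≤ 1 := by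
          unfold nu
          split_ifs
          · exact Phi_le_one _
          · norm_num
        calc nu X W r n * V n ≤ 1 * X ^ (1 / 100 : ℝ) := mul_le_mul h1 (hV n).2 (hV n).1 (by norm_num)
          _ = _ := one_mul _
      · rw [mul_zero]
    refine e1.trans ?_
    rw [sum_const, nsmul_eq_mul, mul_comm]
    apply mul_le_mul_of_nonneg_left _ (by positivity)
    refine le_trans ?_ hbad
    exact_mod_cast card_le_card (fun n hn => (mem_filter.1 hn).2)
  -- positivity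
  have hpos : 0 < S1 - 2 * L * ∑ j, S2 j - 2 * L * S3 - 2 * L * S4 := by
    have e1 : 2 * L * ∑ j, S2 j ≤ 1 / 6400 * N + 4 * K * L ^ 2 * Er := by
      rw [mul_sum]
      refine (sum_le_sum fun j _ => h2up j).trans ?_
      rw [sum_const, card_univ, Fintype.card_fin, nsmul_eq_mul]
      have : (K : ℝ) * (1 / (6400 * K) * N + 4 * L ^ 2 * Er) = 1 / 6400 * N + 4 * K * L ^ 2 * Er := by
        field_simp
      rw [this]
    have e2 : 2 * L * S3 ≤ 6 * L * Er := by
      have := mul_le_mul_of_nonneg_left h3up (show 0 ≤ 2 * L by positivity)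
      linarith
    have e3 : 2 * L * S4 ≤ 2 * L * X ^ (91 / 100 : ℝ) := by
      have h1 : X ^ (1 / 100 : ℝ) * X ^ (9 / 10 : ℝ) = X ^ (91 / 100 : ℝ) := by
        rw [← Real.rpow_add hX0]; norm_num
      rw [h1] at h4up
      exact mul_le_mul_of_nonneg_left h4up (by positivity)
    have e4 : X ^ (1 / 100 : ℝ) * ((4 * t i) * ℓ + 4 * Real.sqrt X * ℓ) ≤ 16 * L * X ^ (91 / 100 : ℝ) := by
      have hsq : Real.sqrt X = X ^ (1 / 2 : ℝ) := Real.sqrt_eq_rpow X
      have h1 : (t i : ℝ) ≤ Real.sqrt X := by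
        refine (ht i).trans ?_
        rw [hsq, Real.rpow_def_of_pos hX0, ← hL]
        have h3 : (L * (1 / 2)) ^ 4 / 24 ≤ Real.exp (L * (1 / 2)) := by
          have := Real.pow_div_factorial_le_exp (L * (1 / 2)) (by positivity) 4
          simpa [Nat.factorial] using this
        refine le_trans ?_ h3
        have h4 : (384 : ℝ) ≤ L ^ 2 := by nlinarith
        have h5 : (L * (1 / 2)) ^ 4 / 24 = L ^ 2 * L ^ 2 / 384 := by ring
        rw [h5, le_div_iff₀ (by norm_num)]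
        nlinarith [sq_nonneg L]
      have h2 : (4 * t i) * ℓ + 4 * Real.sqrt X * ℓ ≤ 16 * L * X ^ (1 / 2 : ℝ) := by
        rw [← hsq]
        have h6 : 0 ≤ Real.sqrt X := Real.sqrt_nonneg X
        have h7 : (4 * t i) * ℓ ≤ 4 * Real.sqrt X * ℓ := by gcongr
        have h8 : 4 * Real.sqrt X * ℓ ≤ 4 * Real.sqrt X * (2 * L) := by gcongr
        linarith
      calc X ^ (1 / 100 : ℝ) * ((4 * t i) * ℓ + 4 * Real.sqrt X * ℓ) ≤
            X ^ (1 / 100 : ℝ) * (16 * L * X ^ (1 / 2 : ℝ)) := by gcongr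
        _ = 16 * L * X ^ (51 / 100 : ℝ) := by
            have : X ^ (51 / 100 : ℝ) = X ^ (1 / 100 : ℝ) * X ^ (1 / 2 : ℝ) := by
              rw [← Real.rpow_add hX0]; norm_num
            rw [this]; ring
        _ ≤ 16 * L * X ^ (91 / 100 : ℝ) := by
            apply mul_le_mul_of_nonneg_left _ (by positivity)
            exact Real.rpow_le_rpow_of_exponent_le (by linarith) (by norm_num)
    have e5 : 2 * L * Er + 6 * L * Er ≤ 8 * L ^ 2 * Er := by
      have : L ≤ L ^ 2 := by nlinarith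
      nlinarith
    have e6 : (8 + 4 * (K : ℝ)) * L ^ 2 * Er = 8 * L ^ 2 * Er + 4 * K * L ^ 2 * Er := by ring
    rw [e6] at hkey
    linarith
  -- the witness
  have hsum : S1 - 2 * L * ∑ j, S2 j - 2 * L * S3 - 2 * L * S4 = ∑ n ∈ Icc 1 N3, nu X W r n *
      (th (n + t i) * Pf (n + t i) - 2 * L * (V n * (∑ j, (if (ps.Prime ∧ (ps : ℝ) ≤ X ^ (1 / 100 : ℝ)) ∧
        ps ∣ n + t j ∧ RA n then (1 : ℝ) else 0) + T n + (if n ∈ bad then 1 else 0)))) := by
    rw [hS1, hS3, hS4]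
    simp only [hS2]
    rw [sum_comm, mul_sum, mul_sum, mul_sum, ← sum_sub_distrib, ← sum_sub_distrib, ← sum_sub_distrib]
    apply sum_congr rfl
    intro n _
    rw [← mul_sum]
    ring
  rw [hsum] at hpos
  obtain ⟨n, hn, hnpos⟩ : ∃ n ∈ Icc 1 N3, 0 < nu X W r n *
      (th (n + t i) * Pf (n + t i) - 2 * L * (V n * (∑ j, (if (ps.Prime ∧ (ps : ℝ) ≤ X ^ (1 / 100 : ℝ)) ∧
        ps ∣ n + t j ∧ RA n then (1 : ℝ) else 0) + T n + (if n ∈ bad then 1 else 0)))) := by
    by_contra hcon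
    push Not at hcon
    exact absurd hpos (not_lt.2 (sum_nonpos hcon))
  have hnu0 := nu_nonneg X W r n
  have hnupos : 0 < nu X W r n := by
    rcases hnu0.eq_or_lt with h | h
    · rw [← h, zero_mul] at hnpos; exact absurd hnpos (lt_irrefl _)
    · exact h
  have hbr := (mul_pos_iff_of_pos_left hnupos).1 hnpos
  set sg2 := ∑ j, (if (ps.Prime ∧ (ps : ℝ) ≤ X ^ (1 / 100 : ℝ)) ∧ ps ∣ n + t j ∧ RA n then (1 : ℝ) else 0) with hsg2
  have hsg20 : 0 ≤ sg2 := sum_nonneg fun j _ => by split_ifs <;> norm_num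
  have hbd0 : (0 : ℝ) ≤ (if n ∈ bad then 1 else 0) := by split_ifs <;> norm_num
  have hVn := (hV n).1
  have hTn := hT n
  have hin : 0 ≤ V n * (sg2 + T n + (if n ∈ bad then 1 else 0)) := by positivity
  have hprod : 0 < th (n + t i) * Pf (n + t i) := by
    have : 0 ≤ 2 * L * (V n * (sg2 + T n + (if n ∈ bad then 1 else 0))) := by positivity
    linarith
  have hth : th (n + t i) ≠ 0 := fun h => by rw [h, zero_mul] at hprod; exact lt_irrefl _ hprod
  have hprime : (n + t i).Prime := by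
    by_contra h
    apply hth
    unfold th
    rw [if_neg h]
  have hPfne : Pf (n + t i) ≠ 0 := fun h => by rw [h, mul_zero] at hprod; exact lt_irrefl _ hprod
  have hOB : ∀ p ∈ P, (n + t i) % p ∉ OmB t i p := by
    by_contra h
    apply hPfne
    simp only [hPf]
    rw [if_neg h]
  have hPfV : Pf (n + t i) = V n := by
    simp only [hPf]
    rw [if_pos hOB]
    congr 1
    push_cast
    ring
  rw [hPfV] at hbr hprod
  have hVpos : 0 < V n := by
    rcases hVn.eq_or_lt with h | h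
    · rw [← h, mul_zero] at hprod; exact absurd hprod (lt_irrefl _)
    · exact h
  have hXn : X < n := by
    by_contra hle
    push Not at hle
    apply hnupos.ne'
    unfold nu
    rw [Phi_eq_zero_of_le (by positivity) (by rw [div_le_one hX0]; exact hle), ite_self]
  have hcl : n ≡ r [MOD W] := by
    by_contra h
    apply hnupos.ne'
    unfold nu
    rw [if_neg h]
  have hn3 : (n : ℝ) ≤ 3 * X := by
    rw [Finset.mem_Icc] at hn
    exact (Nat.cast_le.2 hn.2).trans hN3le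
  have hthle : th (n + t i) ≤ 2 * L := by
    unfold th
    rw [if_pos hprime]
    refine le_trans ?_ hℓL
    apply Real.log_le_log (by exact_mod_cast hprime.pos)
    push_cast
    linarith
  have hmain : sg2 + T n + (if n ∈ bad then 1 else 0) < 1 := by
    have h1 : th (n + t i) * V n ≤ 2 * L * V n := mul_le_mul_of_nonneg_right hthle hVn
    have h2 : 2 * L * V n * (sg2 + T n + (if n ∈ bad then 1 else 0)) < 2 * L * V n * 1 := by linarith
    exact lt_of_mul_lt_mul_left h2 (by positivity)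
  have hpn : ∀ p ∈ P, ¬ p ∣ n + t i := by
    intro p hp hd
    have h1 := (Nat.prime_dvd_prime_iff_eq (mem_PZ.1 hp).1 hprime).1 hd
    have h2 : p ≤ z := by rw [hz]; exact (mem_PZ.1 hp).2.1
    have h3 : (p : ℝ) ≤ z := by exact_mod_cast h2
    have h4 : ((n + t i : ℕ) : ℝ) = p := by rw [h1]
    push_cast at h4
    have h5 : (0 : ℝ) ≤ t i := Nat.cast_nonneg _
    linarith
  have hRAn : RA n := by
    simp only [hRA]
    intro p hp
    rw [mod_mem_OmA t p n (mem_PZ.1 hp).1.pos, ← mod_mem_OmB t i p n (mem_PZ.1 hp).1.pos (hpn p hp)]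
    exact hOB p hp
  refine ⟨n, hXn, hn3, ?_, hcl, by linarith, hprime, ?_⟩
  · intro h
    rw [if_pos h] at hmain
    linarith
  · intro j p hpp hpd
    by_contra hpδ
    push Not at hpδ
    have hδX : X ^ (1 / (200 * (E : ℝ))) < z := by
      rw [Real.rpow_def_of_pos hX0, ← hL, ← Real.lt_log_iff_exp_lt (by linarith)]
      have : L * (1 / (200 * (E : ℝ))) = L / (200 * E) := by ring
      rw [this]
      exact hJ4
    have hpz : p ≤ z := by
      have : (p : ℝ) < z := lt_of_le_of_lt hpδ hδX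
      exact_mod_cast this.le
    by_cases h1 : p ∈ PW X S ps
    · have h2 := (prime_dvd_WW (X := X) (S := S) (ps := ps) hpp).2 h1
      have h3 : n + t j ≡ r + t j [MOD p] := (hcl.of_dvd h2).add_right _
      have h4 : p ∣ r + t j := (Nat.modEq_zero_iff_dvd).1 (h3.symm.trans ((Nat.modEq_zero_iff_dvd).2 hpd))
      exact hpp.one_lt.ne' (Nat.dvd_one.1 ((hr j) ▸ Nat.dvd_gcd h4 h2))
    · by_cases h5 : p = ps
      · have h6 : (p : ℝ) ≤ X ^ (1 / 100 : ℝ) := by
          have : (p : ℝ) ≤ z := by exact_mod_cast hpz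
          linarith
        have h7 : (1 : ℝ) ≤ sg2 := by
          have h8 := single_le_sum (f := fun j => (if (ps.Prime ∧ (ps : ℝ) ≤ X ^ (1 / 100 : ℝ)) ∧
            ps ∣ n + t j ∧ RA n then (1 : ℝ) else 0)) (fun j _ => by split_ifs <;> norm_num) (mem_univ j)
          rw [if_pos ⟨⟨h5 ▸ hpp, h5 ▸ h6⟩, h5 ▸ hpd, hRAn⟩] at h8
          exact h8
        linarith
      · have h6 : p ∈ P := by
          rw [hP, mem_PZ, ← hz]
          exact ⟨hpp, hpz, h1, h5⟩
        have h7 := hRAn p h6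
        rw [mod_mem_OmA t p n hpp.pos] at h7
        exact h7 ⟨j, hpd⟩

end Pool.Agent.N610.AP
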