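import Pool.Agent.N610.AP.Eng
import Pool.Agent.N610.AP.Wts

set_option autoImplicit false
set_option maxHeartbeats 4000000

/-! # A prime with almost prime neighbours inside record windows around linear images -/

namespace Pool.Agent.N610.AP

open Finset Filter
open Pool.Agent.H378R2
open Pool.Agent.H312R2.RG (not_dvd_diff BVat)
open Pool.Agent.H256R2.SC (ff)
open Pool.Agent.TH101.RG

open scoped Classical

/-- one linear form and a tuple -/
theorem ap_form (K : ℕ) (hK : 1 ≤ K) : ∃ δ : ℝ, 0 < δ ∧ ∀ (A0 : ℝ), 0 ≤ A0 → ∀ D : ℕ,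
    ∃ c : ℝ, 0 < c ∧ ∀ d : ℕ, Squarefree d → ∀ᶠ X : ℝ in atTop,
    ∀ (a : ℤ) (g : ℕ), g ≠ 0 → a ∣ g → d ∣ g → ∑ p ∈ g.primeFactors, (1 : ℝ) / p ≤ A0 →
    (g : ℝ) ≤ (Real.log X) ^ D → ∀ b : ℤ, |(b : ℝ)| ≤ X ^ D →
    ∀ t : Fin K → ℕ, (∀ j, (t j : ℝ) ≤ (Real.log X) ^ 2) →
    (∀ p : ℕ, p.Prime → ∃ v : ℕ, ∀ j, ¬ p ∣ v + t j) →
    ∀ h : ℕ, (∀ j, (h + t j).Coprime d) → ∀ i : Fin K,
    ∀ bad : Finset ℕ, (bad.card : ℝ) ≤ X ^ (9 / 10 : ℝ) →
    ∃ n : ℕ, X < n ∧ (n : ℝ) ≤ 3 * X ∧ n ∉ bad ∧ n ≡ h [MOD d] ∧ (n + t i).Prime ∧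
      (∀ j, ∀ p : ℕ, p.Prime → p ∣ n + t j → X ^ δ < (p : ℝ)) ∧
      ∀ z : ℤ, |(z : ℝ)| ≤ c * ff X → (∀ j, b + z ≠ a * t j) →
        ∃ q : ℕ, q.Prime ∧ (q : ℝ) ≤ Real.exp (Real.sqrt (Real.log X)) ∧ ¬ q ∣ g ∧ (q : ℤ) ∣ a * n + b + z := by
  obtain ⟨δ, Z0, B, hδ, hZ04, hengK⟩ := engineAP K hK
  refine ⟨δ, hδ, fun A0 hA0 D => ?_⟩
  obtain ⟨A, c₃, hA4, hc₃, hw⟩ := weightsR K B
  obtain ⟨c, hc, hcov⟩ := coverK K D A0 hA0 (c₃ / 2) (by positivity)
  refine ⟨c, hc, fun d hd => ?_⟩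
  obtain ⟨Z, hZ⟩ : ∃ Z : ℕ, Z = max Z0 d := ⟨_, rfl⟩
  have hZ0 : Z0 ≤ Z := by rw [hZ]; exact le_max_left _ _
  have hZ4 : 4 ≤ Z := hZ04.trans hZ0
  have hZd : d ≤ Z := by rw [hZ]; exact le_max_right _ _
  obtain ⟨X1, hbv⟩ := bvrel_holds A Z
  have t1 := Real.tendsto_log_atTop
  have t2 : Tendsto (fun y : ℝ => Real.log (Real.log y)) atTop atTop := t1.comp t1
  filter_upwards [hw Z, hcov, hengK, eventually_ge_atTop X1, eventually_ge_atTop 4,
    Real.tendsto_log_atTop.eventually_ge_atTop (2 / c₃),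
    Real.tendsto_log_atTop.eventually_ge_atTop (100 + K + 4 * D + 4 * c₃ * (K * (D + 2))),
    t1.eventually_ge_atTop (1000 * Z), t2.eventually_ge_atTop (Z + 1)]
    with X hwX hcovX hgX hX1 hX4 hL1 hL2 hLd hL2d
  intro a g hg0 hag hdg hgS hgD b hb t htl hadm hh hhd i bad hbad
  obtain ⟨ps, S, hps, hS, hBV⟩ := hbv X hX1
  have ha : a ≠ 0 := by
    rintro rfl
    rw [zero_dvd_iff] at hag
    exact hg0 (by exact_mod_cast hag)
  choose! v hv using hadm
  set u : ℕ → ℕ := fun p => if p ∣ d then hh else v p with hu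
  obtain ⟨r, b', U0, hr0, hU0c, hU0, hbb', hrg, hmain⟩ := hcovX ps S (goodP_mono (by omega) hps) hS a g hg0
    hag hgS hgD b t u (by
      intro p hp _ j
      simp only [hu]
      split_ifs with hpd
      · intro hph
        exact hp.one_lt.ne' (Nat.dvd_one.1 ((hhd j) ▸ Nat.dvd_gcd hph hpd))
      · exact hv p hp j)
  set L := Real.log X with hL
  have hD0 : (0 : ℝ) ≤ D := Nat.cast_nonneg D
  have hK0 : (0 : ℝ) ≤ K := Nat.cast_nonneg K
  have hL100 : 100 + K ≤ L := by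
    have : 0 ≤ 4 * c₃ * (K * ((D : ℝ) + 2)) := by positivity
    linarith
  have hL0 : 0 < L := by linarith
  have hX0 : 0 < X := by linarith
  -- the survivors
  obtain ⟨k₀, hk₀1, hk₀⟩ := spare K a b' t
  set U : Finset ℕ := insert k₀ U0 with hU
  have hUne : U.Nonempty := ⟨k₀, by rw [hU]; exact mem_insert_self _ _⟩
  have hUk : ∀ k ∈ U, (k : ℝ) ≤ L ^ 2 ∧ ∀ j, b' + k ≠ a * t j := by
    intro k hk
    rw [hU, mem_insert] at hk
    rcases hk with rfl | hk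
    · refine ⟨?_, hk₀⟩
      have : (k : ℝ) ≤ K := by exact_mod_cast hk₀1
      nlinarith
    · exact hU0 k hk
  have hUc : (U.card : ℝ) ≤ c₃ * L := by
    have h1 : (U.card : ℝ) ≤ U0.card + 1 := by
      rw [hU]
      exact_mod_cast card_insert_le k₀ U0
    rw [div_le_iff₀ hc₃] at hL1
    linarith
  -- the excluded primes
  set Bx : Finset ℕ := insert ps (g.primeFactors ∪ U.biUnion (fun k : ℕ =>
    (univ : Finset (Fin K)).biUnion (fun j => (a * t j - (b' + k)).natAbs.primeFactors))) with hBx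
  have hne : ∀ k ∈ U, ∀ j, a * t j - (b' + (k : ℕ)) ≠ 0 := by
    intro k hk j h0
    exact (hUk k hk).2 j (by linarith)
  have hBxc : 2 * (Bx.card : ℝ) ≤ L ^ 4 := by
    have h1 : (Bx.card : ℝ) ≤ g.primeFactors.card +
        ∑ k ∈ U, ∑ j : Fin K, ((a * t j - (b' + (k : ℕ))).natAbs.primeFactors.card : ℝ) + 1 := by
      have h2 : Bx.card ≤ g.primeFactors.card +
          ∑ k ∈ U, ∑ j : Fin K, (a * t j - (b' + (k : ℕ))).natAbs.primeFactors.card + 1 := by
        rw [hBx]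
        refine (card_insert_le _ _).trans ?_
        apply Nat.add_le_add_right
        refine (card_union_le _ _).trans ?_
        apply Nat.add_le_add_left
        refine card_biUnion_le.trans (sum_le_sum fun k _ => card_biUnion_le)
      exact_mod_cast h2
    have ha1 : 1 ≤ g := Nat.pos_of_ne_zero hg0
    have h2 : (g.primeFactors.card : ℝ) ≤ 2 * (D * L) := by
      refine (Pool.Agent.H398R2.RK.card_primeFactors_le _ ha1).trans ?_
      have h3 : Real.log (g : ℝ) ≤ D * Real.log L := by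
        have := Real.log_le_log (by exact_mod_cast ha1) hgD
        rwa [Real.log_pow] at this
      have h4 : Real.log L ≤ L := (Real.log_le_sub_one_of_pos hL0).trans (by linarith)
      have h5 : (D : ℝ) * Real.log L ≤ D * L := mul_le_mul_of_nonneg_left h4 hD0
      linarith
    have haD : |(a : ℝ)| ≤ L ^ D := by
      refine le_trans ?_ hgD
      have h1 := Int.le_of_dvd (by exact_mod_cast ha1) ((abs_dvd a (g : ℤ)).2 hag)
      have h2 : ((|a| : ℤ) : ℝ) ≤ ((g : ℤ) : ℝ) := by exact_mod_cast h1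
      rw [Int.cast_abs] at h2
      exact_mod_cast h2
    have h3 : ∀ k ∈ U, ∀ j : Fin K, ((a * t j - (b' + (k : ℕ))).natAbs.primeFactors.card : ℝ) ≤
        2 * ((D + 2) * L) := by
      intro k hk j
      obtain ⟨hk1, -⟩ := hUk k hk
      have hk2 := hne k hk j
      refine (Pool.Agent.H398R2.RK.card_primeFactors_le _ (Int.natAbs_pos.2 hk2)).trans ?_
      apply mul_le_mul_of_nonneg_left _ (by norm_num)
      have h4 : (((a * t j - (b' + (k : ℕ))).natAbs : ℕ) : ℝ) ≤ X ^ (D + 2) := by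
        have h5 : (((a * t j - (b' + (k : ℕ))).natAbs : ℕ) : ℝ) = |((a * t j - (b' + (k : ℕ)) : ℤ) : ℝ)| := by
          rw [Nat.cast_natAbs, Int.cast_abs]
        rw [h5]
        have h6 : ((a * t j - (b' + (k : ℕ)) : ℤ) : ℝ) = (a : ℝ) * t j - (((b' - b : ℤ) : ℝ) + (b : ℝ) + k) := by
          push_cast; ring
        rw [h6]
        have h7 : |(a : ℝ) * t j| ≤ L ^ D * L ^ 2 := by
          rw [abs_mul, abs_of_nonneg (Nat.cast_nonneg (t j) : (0 : ℝ) ≤ t j)]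
          exact mul_le_mul haD (htl j) (Nat.cast_nonneg _) (by positivity)
        have h8 : |((b' - b : ℤ) : ℝ) + (b : ℝ) + k| ≤ |((b' - b : ℤ) : ℝ)| + |(b : ℝ)| + |(k : ℝ)| :=
          abs_add_three _ _ _
        rw [abs_of_nonneg (Nat.cast_nonneg k : (0 : ℝ) ≤ k)] at h8
        refine (abs_sub _ _).trans ?_
        have h9 := log_small (show 100 ≤ Real.log X by linarith) hX0 D
        rw [← hL] at h9
        linarith
      have h5 := Real.log_le_log (by exact_mod_cast Int.natAbs_pos.2 hk2) h4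
      rw [Real.log_pow] at h5
      push_cast at h5
      exact h5
    have h4 : ∑ k ∈ U, ∑ j : Fin K, ((a * t j - (b' + (k : ℕ))).natAbs.primeFactors.card : ℝ) ≤
        (c₃ * L) * (K * (2 * ((D + 2) * L))) := by
      have h5 : ∀ k ∈ U, ∑ j : Fin K, ((a * t j - (b' + (k : ℕ))).natAbs.primeFactors.card : ℝ) ≤
          K * (2 * ((D + 2) * L)) := by
        intro k hk
        refine (sum_le_card_nsmul _ _ _ fun j _ => h3 k hk j).trans ?_
        rw [nsmul_eq_mul, card_univ, Fintype.card_fin]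
      refine (sum_le_card_nsmul U _ _ h5).trans ?_
      rw [nsmul_eq_mul]
      exact mul_le_mul_of_nonneg_right hUc (by positivity)
    have h5 : 2 + 4 * D * L + 4 * c₃ * (K * (D + 2)) * L ^ 2 ≤ L ^ 4 := by
      have h6 : 1 ≤ L := by linarith
      have h7 : 2 + 4 * D * L + 4 * c₃ * (K * (D + 2)) * L ^ 2 ≤ (2 + 4 * D + 4 * c₃ * (K * (D + 2))) * L ^ 2 := by
        have e1 : (1 : ℝ) ≤ L ^ 2 := one_le_pow₀ h6
        have e2 : L ≤ L ^ 2 := by nlinarith
        have e3 : 4 * (D : ℝ) * L ≤ 4 * D * L ^ 2 := by gcongr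
        nlinarith
      refine h7.trans ?_
      calc (2 + 4 * D + 4 * c₃ * (K * (D + 2))) * L ^ 2 ≤ L * L ^ 2 := by
            apply mul_le_mul_of_nonneg_right _ (by positivity)
            linarith
        _ = L ^ 3 := by ring
        _ ≤ L ^ 4 := pow_le_pow_right₀ h6 (by norm_num)
    have h6 : 2 * (Bx.card : ℝ) ≤ 2 * (2 * (D * L) + (c₃ * L) * (K * (2 * ((D + 2) * L))) + 1) := by linarith
    refine h6.trans (le_trans (le_of_eq ?_) h5)
    ring
  obtain ⟨PP, hPP, hres⟩ := hwX ps S hps hBV t Bx U (by rw [hBx]; exact mem_insert_self _ _) hBxc hUne hUc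
  have hPg : ∀ q ∈ PP, ¬ q ∣ g := by
    intro q hq hd
    apply (hPP q hq).2.2.2.2
    rw [hBx, mem_insert, mem_union]
    right; left
    rw [Nat.mem_primeFactors]
    exact ⟨(hPP q hq).1, hd, hg0⟩
  have hPa : ∀ q ∈ PP, ¬ (q : ℤ) ∣ a := fun q hq hd => hPg q hq (by exact_mod_cast hd.trans hag)
  have hPb : ∀ q ∈ PP, ∀ k ∈ U, ∀ j, ¬ (q : ℤ) ∣ a * t j - (b' + (k : ℕ)) := by
    intro q hq k hk j hd
    apply (hPP q hq).2.2.2.2
    rw [hBx, mem_insert, mem_union]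
    right; right
    rw [mem_biUnion]
    refine ⟨k, hk, ?_⟩
    rw [mem_biUnion]
    refine ⟨j, mem_univ _, ?_⟩
    rw [Nat.mem_primeFactors]
    exact ⟨(hPP q hq).1, Int.natCast_dvd.1 hd, Int.natAbs_ne_zero.2 (hne k hk j)⟩
  -- the residues
  have hex : ∀ (q : ℕ) (k : ↥U), ∃ ρ : ℤ, q ∈ PP → (q : ℤ) ∣ a * ρ + (b' + ((k : ℕ) : ℤ)) := by
    intro q k
    by_cases hq : q ∈ PP
    · obtain ⟨ρ, hρ⟩ := solve q (hPP q hq).1 a (b' + ((k : ℕ) : ℤ)) (hPa q hq)
      exact ⟨ρ, fun _ => hρ⟩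
    · exact ⟨0, fun h => absurd h hq⟩
  choose res hresd using hex
  have hLA : L ^ 2 ≤ L ^ A := pow_le_pow_right₀ (by linarith) (by omega)
  obtain ⟨V, T, Z₁, M, M', M₂, e₁, e₂, e₃, w1, w2, w3, w4, w5, w6, w7, w8, w9, we, wg, w10, w11, w12, w13, w14, w15⟩ :=
    hres res
    (by
      intro q hq k l hkl hd
      have h1 := hresd q k hq
      have h2 := hresd q l hq
      have h3 : (q : ℤ) ∣ ((k : ℕ) : ℤ) - ((l : ℕ) : ℤ) := by
        have h4 : ((k : ℕ) : ℤ) - ((l : ℕ) : ℤ) = (a * res q k + (b' + ((k : ℕ) : ℤ))) -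
            (a * res q l + (b' + ((l : ℕ) : ℤ))) - a * (res q k - res q l) := by ring
        rw [h4]
        exact dvd_sub (dvd_sub h1 h2) (hd.mul_left a)
      exact not_dvd_diff (((hUk k k.2).1).trans hLA) (((hUk l l.2).1).trans hLA) (hPP q hq).2.1
        (fun h => hkl (Subtype.ext h)) h3)
    (by
      intro q hq k j hd
      have h1 := hresd q k hq
      apply hPb q hq k k.2 j
      have h2 := dvd_sub (hd.mul_left a) h1
      have h3 : a * ((t j : ℤ) + res q k) - (a * res q k + (b' + ((k : ℕ) : ℤ))) =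
          a * t j - (b' + ((k : ℕ) : ℤ)) := by ring
      rwa [h3] at h2)
  have hPps : ps.Prime → ∀ p ∈ PP, ¬ p ∣ ps := by
    intro hpp p hp hd
    apply (hPP p hp).2.2.2.2
    rw [(Nat.prime_dvd_prime_iff_eq (hPP p hp).1 hpp).1 hd, hBx]
    exact mem_insert_self _ _
  obtain ⟨n, hXn, hn3, hnb, hnr, hTn, hprime, hrough⟩ := hgX ps S (goodP_mono hZ0 hps) hS t htl i r hr0
    V T Z₁ M M' M₂ e₁ e₂ e₃ w1 w2 w4 w5 w7 w9 we (fun hpp hpX => wg ps hpp.pos (hPps hpp) hpX) w11 (w12 i)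
    w13 w14 w15 bad hbad
  have hsmall : ∀ p : ℕ, p.Prime → p ≤ Z → p ∈ PW X S ps := fun p hp hpZ =>
    small_mem_PW hLd hL2d hps le_rfl hS hp hpZ
  refine ⟨n, hXn, hn3, hnb, ?_, hprime, hrough, fun z hz hbz => ?_⟩
  · apply modEq_of_primes hd
    intro p hp
    have hpp := Nat.prime_of_mem_primeFactors hp
    have hpd := Nat.dvd_of_mem_primeFactors hp
    have hd0 : 0 < d := Nat.pos_of_ne_zero hd.ne_zero
    have hpled : p ≤ d := Nat.le_of_dvd hd0 hpd
    have hpPW := hsmall p hpp (hpled.trans hZd)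
    have h1 := hrg p hpPW (hpd.trans hdg)
    have h2 : u p = hh := by simp only [hu]; rw [if_pos hpd]
    rw [h2] at h1
    exact (hnr.of_dvd ((prime_dvd_WW hpp).2 hpPW)).trans h1
  rcases hmain z hz hbz with ⟨k, hk, hbk⟩ | ⟨p, hp, hpy, hpa, hpd⟩
  · have hkU : k ∈ U := by rw [hU]; exact mem_insert_of_mem hk
    obtain ⟨q, hq, hqd⟩ := w3 n hTn ⟨k, hkU⟩
    refine ⟨q, (hPP q hq).1, (hPP q hq).2.2.1, hPg q hq, ?_⟩
    have h1 := hresd q ⟨k, hkU⟩ hq
    have h2 : a * (n : ℤ) + b + z = a * ((n : ℤ) - res q ⟨k, hkU⟩) +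
        (a * res q ⟨k, hkU⟩ + (b' + (k : ℤ))) := by
      have : a * (n : ℤ) + b + z = a * n + (b + z) := by ring
      rw [this, hbk]
      ring
    rw [h2]
    exact dvd_add (hqd.mul_left a) h1
  · refine ⟨p, hp, ?_, hpa, hpd n hnr⟩
    have h1 : (p : ℝ) ≤ yy X := by exact_mod_cast hpy
    have h2 : (yy X : ℝ) ≤ L / 1000 := Nat.floor_le (by positivity)
    have h3 : (Real.sqrt L) ^ 2 / 2 ≤ Real.exp (Real.sqrt L) := by
      have := Real.pow_div_factorial_le_exp (Real.sqrt L) (Real.sqrt_nonneg L) 2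
      simpa [Nat.factorial] using this
    rw [Real.sq_sqrt hL0.le] at h3
    linarith

end Pool.Agent.N610.AP
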