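import Pool.Agent.N610.AP.Sums

set_option autoImplicit false

/-! # The products over the sieving primes -/

open Finset Filter

namespace Pool.Agent.N610.AP

open Pool.Agent.H378R2

theorem exp_le_one_sub {x : ℝ} (_h0 : 0 ≤ x) (h1 : x ≤ 1 / 2) : Real.exp (-(2 * x)) ≤ 1 - x := by
  have hpos : 0 < 1 - x := by linarith
  have h2 := Real.one_sub_inv_le_log_of_pos hpos
  have h3 : -(2 * x) ≤ Real.log (1 - x) := by
    refine le_trans ?_ h2
    have h4 : (1 - x)⁻¹ ≤ 1 + 2 * x := by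
      rw [inv_le_comm₀ hpos (by linarith), ← one_div, div_le_iff₀ (by linarith)]
      nlinarith
    linarith
  calc Real.exp (-(2 * x)) ≤ Real.exp (Real.log (1 - x)) := Real.exp_le_exp.2 h3
    _ = 1 - x := Real.exp_log hpos

/-- lower bound of the product of the densities -/
theorem prod_lower (K : ℕ) : ∃ c : ℝ, 0 < c ∧ ∀ (N : ℕ) (P : Finset ℕ) (a : ℕ → ℕ), 3 ≤ N →
    (∀ p ∈ P, p.Prime ∧ 4 * K + 2 < p ∧ p ≤ N) → (∀ p ∈ P, a p ≤ K) →
    c / (Real.log N) ^ (4 * K) ≤ ∏ p ∈ P, (1 - (a p : ℝ) * (1 / ((p : ℝ) - 1))) := by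
  obtain ⟨C, hC⟩ := Pool.Agent.Helper256.KM.mertens_inv
  refine ⟨Real.exp (-(4 * K * C)), Real.exp_pos _, ?_⟩
  intro N P a hN hP ha
  have hNr : (3 : ℝ) ≤ N := by exact_mod_cast hN
  have hlogN : 0 < Real.log N := Real.log_pos (by linarith)
  have h1 : ∀ p ∈ P, Real.exp (-(4 * K * (1 / (p : ℝ)))) ≤ 1 - (a p : ℝ) * (1 / ((p : ℝ) - 1)) := by
    intro p hp
    obtain ⟨hpp, hpK, _⟩ := hP p hp
    have hpK' : 4 * (K : ℝ) + 2 < p := by exact_mod_cast hpK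
    have hK0 : (0 : ℝ) ≤ K := Nat.cast_nonneg K
    have hp1 : (0 : ℝ) < (p : ℝ) - 1 := by linarith
    have hp0 : (0 : ℝ) < p := by linarith
    have hap : (a p : ℝ) ≤ K := by exact_mod_cast ha p hp
    have hx0 : 0 ≤ (a p : ℝ) * (1 / ((p : ℝ) - 1)) := by positivity
    have hx1 : (a p : ℝ) * (1 / ((p : ℝ) - 1)) ≤ 2 * K * (1 / (p : ℝ)) := by
      have h2 : 1 / ((p : ℝ) - 1) ≤ 2 * (1 / (p : ℝ)) := by
        rw [mul_one_div, div_le_div_iff₀ hp1 hp0]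
        linarith
      calc (a p : ℝ) * (1 / ((p : ℝ) - 1)) ≤ K * (2 * (1 / (p : ℝ))) := by gcongr
        _ = _ := by ring
    have hx2 : (a p : ℝ) * (1 / ((p : ℝ) - 1)) ≤ 1 / 2 := by
      refine hx1.trans ?_
      rw [mul_one_div, div_le_div_iff₀ hp0 (by norm_num)]
      linarith
    refine le_trans (Real.exp_le_exp.2 ?_) (exp_le_one_sub hx0 hx2)
    linarith
  have h2 : ∏ p ∈ P, Real.exp (-(4 * K * (1 / (p : ℝ)))) ≤ ∏ p ∈ P, (1 - (a p : ℝ) * (1 / ((p : ℝ) - 1))) :=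
    Finset.prod_le_prod (fun p _ => (Real.exp_pos _).le) h1
  refine le_trans ?_ h2
  rw [← Real.exp_sum, Finset.sum_neg_distrib, ← Finset.mul_sum]
  have h3 : ∑ p ∈ P, 1 / (p : ℝ) ≤ Real.log (Real.log N) + C := by
    have h4 : ∑ p ∈ P, 1 / (p : ℝ) ≤ ∑ p ∈ (Icc 1 N).filter Nat.Prime, (1 : ℝ) / p := by
      apply Finset.sum_le_sum_of_subset_of_nonneg
      · intro p hp
        rw [mem_filter, mem_Icc]
        exact ⟨⟨(hP p hp).1.one_lt.le, (hP p hp).2.2⟩, (hP p hp).1⟩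
      · intro p _ _
        positivity
    have h5 := (abs_le.1 (hC N hN)).2
    linarith
  have h6 : (Real.log N) ^ (4 * K) = Real.exp (4 * K * Real.log (Real.log N)) := by
    rw [show (4 * (K : ℝ) * Real.log (Real.log N)) = ((4 * K : ℕ) : ℝ) * Real.log (Real.log N) by push_cast; ring,
      Real.exp_nat_mul, Real.exp_log hlogN]
  rw [h6, ← Real.exp_sub]
  apply Real.exp_le_exp.2
  have hK0 : (0 : ℝ) ≤ 4 * (K : ℝ) := by positivity
  have h7 := mul_le_mul_of_nonneg_left h3 hK0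
  linarith

theorem totient_prod (P : Finset ℕ) (hP : ∀ p ∈ P, p.Prime) :
    (((∏ p ∈ P, p).totient : ℕ) : ℝ) = ((∏ p ∈ P, p : ℕ) : ℝ) * ∏ p ∈ P, (1 - 1 / (p : ℝ)) := by
  rw [totient_primes P hP]
  push_cast
  rw [← Finset.prod_mul_distrib]
  apply Finset.prod_congr rfl
  intro p hp
  have h0 : (p : ℝ) ≠ 0 := by
    have := (hP p hp).pos
    positivity
  field_simp

/-- Mertens' theorem for the primes of the big modulus and the sieving primes -/
theorem prod_upper : ∃ C : ℝ, 0 < C ∧ ∀ (X : ℝ) (S : Finset ℕ) (ps J : ℕ), 1 ≤ J → yy X ≤ 2 ^ 2 ^ J →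
    ((WW X S ps).totient : ℝ) * ∏ p ∈ PZ X S ps J, (1 - 1 / (p : ℝ)) ≤
      (WW X S ps : ℝ) * (C / Real.log ((2 ^ 2 ^ J : ℕ) : ℝ)) := by
  classical
  obtain ⟨C, hC⟩ := Pool.Agent.Helper256.KM.mertens_inv
  refine ⟨2 * Real.exp C, by positivity, ?_⟩
  intro X S ps J hJ hyy
  obtain ⟨N, hN⟩ : ∃ N : ℕ, N = 2 ^ 2 ^ J := ⟨_, rfl⟩
  have hN4 : 4 ≤ N := by
    rw [hN]
    calc 4 = 2 ^ 2 ^ 1 := by norm_num
      _ ≤ 2 ^ 2 ^ J := Nat.pow_le_pow_right (by norm_num) (Nat.pow_le_pow_right (by norm_num) hJ)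
  rw [← hN] at hyy ⊢
  have hNr : (4 : ℝ) ≤ N := by exact_mod_cast hN4
  have hlogN : 0 < Real.log N := Real.log_pos (by linarith)
  set PN := (Icc 1 N).filter Nat.Prime with hPN
  have hf0 : ∀ p : ℕ, p.Prime → (0 : ℝ) ≤ 1 - 1 / (p : ℝ) ∧ 1 - 1 / (p : ℝ) ≤ 1 := by
    intro p hp
    have h1 : (1 : ℝ) ≤ p := by exact_mod_cast hp.one_lt.le
    constructor
    · rw [sub_nonneg, div_le_one (by linarith)]
      exact h1
    · have : 0 ≤ 1 / (p : ℝ) := by positivity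
      linarith
  have hWt := totient_prod (PW X S ps) (fun p hp => (mem_PW.1 hp).2.1)
  have hWd : (∏ p ∈ PW X S ps, p) = WW X S ps := rfl
  rw [hWd] at hWt
  rw [hWt, mul_assoc]
  apply mul_le_mul_of_nonneg_left _ (Nat.cast_nonneg _)
  have hdisj : Disjoint (PW X S ps) (PZ X S ps J) := by
    rw [Finset.disjoint_left]
    intro p hp hp2
    exact (mem_PZ.1 hp2).2.2.1 hp
  rw [← Finset.prod_union hdisj]
  have hsub : PN.erase ps ⊆ PW X S ps ∪ PZ X S ps J := by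
    intro p hp
    rw [mem_erase, hPN, mem_filter, mem_Icc] at hp
    rw [mem_union]
    by_cases h : p ∈ PW X S ps
    · exact Or.inl h
    · right
      rw [mem_PZ, ← hN]
      exact ⟨hp.2.2, hp.2.1.2, h, hp.1⟩
  have hpr : ∀ p ∈ PW X S ps ∪ PZ X S ps J, p.Prime := by
    intro p hp
    rcases mem_union.1 hp with h | h
    · exact (mem_PW.1 h).2.1
    · exact (mem_PZ.1 h).1
  have h1 : ∏ p ∈ PW X S ps ∪ PZ X S ps J, (1 - 1 / (p : ℝ)) ≤ ∏ p ∈ PN.erase ps, (1 - 1 / (p : ℝ)) := by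
    rw [← Finset.prod_sdiff hsub]
    calc (∏ p ∈ (PW X S ps ∪ PZ X S ps J) \ PN.erase ps, (1 - 1 / (p : ℝ))) * ∏ p ∈ PN.erase ps, (1 - 1 / (p : ℝ))
        ≤ 1 * ∏ p ∈ PN.erase ps, (1 - 1 / (p : ℝ)) := by
          apply mul_le_mul_of_nonneg_right
          · apply Finset.prod_le_one
            · intro p hp
              exact (hf0 p (hpr p (mem_sdiff.1 hp).1)).1
            · intro p hp
              exact (hf0 p (hpr p (mem_sdiff.1 hp).1)).2
          · apply Finset.prod_nonneg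
            intro p hp
            exact (hf0 p (hpr p (hsub hp))).1
      _ = _ := one_mul _
  have hPNnn : 0 ≤ ∏ p ∈ PN, (1 - 1 / (p : ℝ)) := by
    apply Finset.prod_nonneg
    intro p hp
    exact (hf0 p (mem_filter.1 hp).2).1
  have h2 : ∏ p ∈ PN.erase ps, (1 - 1 / (p : ℝ)) ≤ 2 * ∏ p ∈ PN, (1 - 1 / (p : ℝ)) := by
    by_cases h : ps ∈ PN
    · rw [← Finset.mul_prod_erase PN (fun p => 1 - 1 / (p : ℝ)) h]
      have h3 : 0 ≤ ∏ p ∈ PN.erase ps, (1 - 1 / (p : ℝ)) := by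
        apply Finset.prod_nonneg
        intro p hp
        exact (hf0 p (hpr p (hsub hp))).1
      have h4 : (2 : ℝ) ≤ ps := by exact_mod_cast (mem_filter.1 h).2.two_le
      have h5 : 1 / (ps : ℝ) ≤ 1 / 2 := one_div_le_one_div_of_le (by norm_num) h4
      have h6 : (1 / 2 : ℝ) ≤ 1 - 1 / (ps : ℝ) := by linarith
      have h7 := mul_le_mul_of_nonneg_right h6 h3
      show _ ≤ 2 * ((1 - 1 / (ps : ℝ)) * ∏ p ∈ PN.erase ps, (1 - 1 / (p : ℝ)))
      linarith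
    · rw [Finset.erase_eq_of_notMem h]
      linarith
  have h3 : ∏ p ∈ PN, (1 - 1 / (p : ℝ)) ≤ Real.exp C / Real.log N := by
    have h4 : ∏ p ∈ PN, (1 - 1 / (p : ℝ)) ≤ ∏ p ∈ PN, Real.exp (-(1 / (p : ℝ))) := by
      apply Finset.prod_le_prod
      · intro p hp
        exact (hf0 p (mem_filter.1 hp).2).1
      · intro p _
        have := Real.add_one_le_exp (-(1 / (p : ℝ)))
        linarith
    refine h4.trans ?_
    rw [← Real.exp_sum, Finset.sum_neg_distrib]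
    have h5 := (abs_le.1 (hC N (by omega))).1
    have h6 : Real.exp C / Real.log N = Real.exp (C - Real.log (Real.log N)) := by
      rw [Real.exp_sub, Real.exp_log hlogN]
    rw [h6]
    apply Real.exp_le_exp.2
    linarith
  calc ∏ p ∈ PW X S ps ∪ PZ X S ps J, (1 - 1 / (p : ℝ)) ≤ 2 * ∏ p ∈ PN, (1 - 1 / (p : ℝ)) := h1.trans h2
    _ ≤ 2 * (Real.exp C / Real.log N) := by linarith
    _ = _ := by ring

/-- the identity between the two densities -/
theorem dens_id {K : ℕ} (t : Fin K → ℕ) (i : Fin K) (p : ℕ) (hp : p.Prime) :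
    1 - ((OmA t p).card : ℝ) * (1 / (p : ℝ)) =
      (1 - 1 / (p : ℝ)) * (1 - ((OmB t i p).card : ℝ) * (1 / ((p : ℝ) - 1))) := by
  rw [card_OmA_eq t i p hp.pos]
  have h1 : (2 : ℝ) ≤ p := by exact_mod_cast hp.two_le
  have h2 : (p : ℝ) - 1 ≠ 0 := by linarith
  have h3 : (p : ℝ) ≠ 0 := by linarith
  push_cast
  field_simp
  ring

end Pool.Agent.N610.AP
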