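import Pool.Agent.N610.AP.Mert

set_option autoImplicit false

/-! # Parameters and numerical inequalities -/

open Finset Filter

namespace Pool.Agent.N610.AP

open Pool.Agent.H378R2

/-- the sieving limit -/
theorem exists_J (E : ℕ) (hE : 1 ≤ E) : ∀ᶠ X : ℝ in atTop, ∃ J : ℕ, 1 ≤ J ∧
    ((2 ^ 2 ^ J) ^ E : ℕ) ≤ ⌊Real.exp (2 * LL X)⌋₊ ∧ yy X ≤ 2 ^ 2 ^ J ∧
    Real.log X / (200 * E) < Real.log ((2 ^ 2 ^ J : ℕ) : ℝ) ∧
    Real.log ((2 ^ 2 ^ J : ℕ) : ℝ) ≤ Real.log X ∧
    (J : ℝ) + 2 ≤ 2 * Real.log X ∧ ((2 ^ 2 ^ J : ℕ) : ℝ) ≤ X ^ (1 / 100 : ℝ) := by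
  have hEr : (1 : ℝ) ≤ E := by exact_mod_cast hE
  have hlog2 : 0 < Real.log 2 := Real.log_pos (by norm_num)
  have hlog2' : Real.log 2 ≤ 1 := by have := Real.log_two_lt_d9; linarith
  have hexp : ∀ᶠ L : ℝ in atTop, L ≤ Real.exp (L / (200 * E)) := by
    have h1 := (Real.isLittleO_pow_log_id_atTop (n := 1)).def
      (show (0 : ℝ) < 1 / (200 * E) by positivity)
    have h2 : ∀ᶠ y : ℝ in atTop, Real.log y * (200 * E) ≤ y := by
      filter_upwards [h1, eventually_ge_atTop (1 : ℝ)] with y hy hy1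
      rw [pow_one, Real.norm_eq_abs, Real.norm_eq_abs, abs_of_nonneg (Real.log_nonneg hy1),
        abs_of_nonneg (by simp only [id]; linarith), id, div_mul_eq_mul_div, one_mul,
        le_div_iff₀ (by positivity)] at hy
      exact hy
    filter_upwards [h2, eventually_gt_atTop (0 : ℝ)] with L hL hL0
    calc L = Real.exp (Real.log L) := (Real.exp_log hL0).symm
      _ ≤ _ := Real.exp_le_exp.2 (by rw [le_div_iff₀ (by positivity)]; exact hL)
  filter_upwards [Real.tendsto_log_atTop.eventually hexp,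
    Real.tendsto_log_atTop.eventually_ge_atTop (400 * E), eventually_gt_atTop (0 : ℝ)] with X h1 h2 hX0
  set L := Real.log X with hL
  have hL0 : 0 < L := by nlinarith
  have hL400 : 400 ≤ L := by nlinarith
  obtain ⟨y, hy⟩ : ∃ y : ℝ, y = L / (100 * E * Real.log 2) := ⟨_, rfl⟩
  have hE0 : 0 < (100 * (E : ℝ) * Real.log 2) := by positivity
  have hy4 : 4 ≤ y := by
    rw [hy, le_div_iff₀ hE0]
    nlinarith
  obtain ⟨J, hJ1, hJ2⟩ := exists_nat_pow_near (show 1 ≤ y by linarith) (show (1 : ℝ) < 2 by norm_num)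
  have hJpos : 1 ≤ J := by
    by_contra h
    have : J = 0 := by omega
    rw [this] at hJ2
    norm_num at hJ2
    linarith
  have hlogz : Real.log ((2 ^ 2 ^ J : ℕ) : ℝ) = 2 ^ J * Real.log 2 := by
    push_cast
    rw [Real.log_pow]
    push_cast
    ring
  have hle : 2 ^ J * Real.log 2 * E ≤ L / 100 := by
    have h3 := mul_le_mul_of_nonneg_right hJ1 (show 0 ≤ Real.log 2 * E by positivity)
    have h4 : y * (Real.log 2 * E) = L / 100 := by
      rw [hy]
      field_simp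
    calc 2 ^ J * Real.log 2 * E = 2 ^ J * (Real.log 2 * E) := by ring
      _ ≤ _ := h3.trans h4.le
  have hlt : L / (200 * E) < 2 ^ J * Real.log 2 := by
    have h3 := mul_lt_mul_of_pos_right hJ2 hlog2
    have h4 : y * Real.log 2 = L / (100 * E) := by
      rw [hy]
      field_simp
    rw [h4, pow_succ] at h3
    have h5 : L / (200 * E) = L / (100 * E) / 2 := by
      rw [div_div]
      congr 1
      ring
    rw [h5]
    linarith
  have hleL : 2 ^ J * Real.log 2 ≤ L / 100 := by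
    have h0 : 0 ≤ (2 : ℝ) ^ J * Real.log 2 := by positivity
    nlinarith
  have hzexp : ((2 ^ 2 ^ J : ℕ) : ℝ) = Real.exp (2 ^ J * Real.log 2) := by
    rw [← hlogz, Real.exp_log (by positivity)]
  refine ⟨J, hJpos, ?_, ?_, ?_, ?_, ?_, ?_⟩
  · apply Nat.le_floor
    push_cast
    have h3 : ((2 : ℝ) ^ 2 ^ J) = Real.exp (2 ^ J * Real.log 2) := by
      rw [← hzexp]; push_cast; ring
    rw [h3, ← Real.exp_nat_mul]
    apply Real.exp_le_exp.2
    unfold LL
    rw [← hL]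
    linarith
  · have h3 : (yy X : ℝ) ≤ ((2 ^ 2 ^ J : ℕ) : ℝ) := by
      have h4 : (yy X : ℝ) ≤ L / 1000 := Nat.floor_le (by positivity)
      rw [hzexp]
      have h5 : Real.exp (L / (200 * E)) ≤ Real.exp (2 ^ J * Real.log 2) := Real.exp_le_exp.2 hlt.le
      linarith
    exact_mod_cast h3
  · rw [hlogz]; exact hlt
  · rw [hlogz]; linarith
  · have h3 : (J : ℝ) ≤ 2 ^ J := by exact_mod_cast Nat.lt_two_pow_self.le
    have h4 : (2 : ℝ) ^ J ≤ L := by
      have h5 : (1 : ℝ) / 2 ≤ Real.log 2 := by have := Real.log_two_gt_d9; linarith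
      have h6 : (2 : ℝ) ^ J * (1 / 2) ≤ 2 ^ J * Real.log 2 := mul_le_mul_of_nonneg_left h5 (by positivity)
      linarith
    linarith
  · rw [hzexp, Real.rpow_def_of_pos hX0]
    apply Real.exp_le_exp.2
    rw [← hL]
    linarith

theorem ev_pow_exp' (c : ℝ) (m : ℕ) (ε : ℝ) (hε : 0 < ε) : ∀ᶠ L : ℝ in atTop, c * L ^ m ≤ Real.exp (ε * L) := by
  have h1 := (isLittleO_pow_exp_pos_mul_atTop m hε).def (show (0 : ℝ) < 1 / (|c| + 1) by positivity)
  filter_upwards [h1, eventually_ge_atTop (0 : ℝ)] with L hL hL0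
  rw [Real.norm_eq_abs, Real.norm_eq_abs, abs_of_nonneg (pow_nonneg hL0 m), abs_of_pos (Real.exp_pos _),
    div_mul_eq_mul_div, one_mul, le_div_iff₀ (by positivity)] at hL
  have h2 : c * L ^ m ≤ (|c| + 1) * L ^ m := by
    apply mul_le_mul_of_nonneg_right _ (pow_nonneg hL0 m)
    have := le_abs_self c
    linarith
  linarith

/-- the comparison of the main term with the errors -/
theorem final_num (K : ℕ) (cL : ℝ) (hcL : 0 < cL) : ∀ᶠ X : ℝ in atTop, ∀ (W φ Z₁ M MP PB lz : ℝ),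
    0 < φ → φ ≤ W → W ≤ Real.exp (Real.log X / 700) → 1 ≤ Z₁ → 3 / 4 * Z₁ ≤ M → X / 20 ≤ MP →
    0 < lz → lz ≤ Real.log X → cL / lz ^ (4 * K) ≤ PB →
    (8 + 4 * K) * (Real.log X) ^ 2 * (Z₁ * (X / (W * (Real.log X) ^ (4 * K + 4)))) +
      18 * Real.log X * X ^ (91 / 100 : ℝ) < 1 / 800 * (M * MP * PB / φ) := by
  have h1 := ev_pow_exp' 18 (4 * K + 3) (8 / 100) (by norm_num)
  filter_upwards [Real.tendsto_log_atTop.eventually h1,
    Real.tendsto_log_atTop.eventually_ge_atTop 1,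
    Real.tendsto_log_atTop.eventually_ge_atTop (64000 * (10 + 4 * K) / (3 * cL)), eventually_gt_atTop (0 : ℝ)] with X a1 a2 a3 hX0
  intro W φ Z₁ M MP PB lz hφ hφW hW hZ hM hMP hlz hlzL hPB
  set L := Real.log X with hL
  have hL0 : 0 < L := by linarith
  have hW0 : 0 < W := by linarith
  obtain ⟨u, hu⟩ : ∃ u : ℝ, u = Z₁ * X / W := ⟨_, rfl⟩
  have hu0 : 0 < u := by rw [hu]; positivity
  have hLp : 0 < L ^ (4 * K) := by positivity
  -- lower bound of the main term
  have hmain : 3 / 80 * cL * u / L ^ (4 * K) ≤ M * MP * PB / φ := by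
    have e1 : cL / L ^ (4 * K) ≤ PB := by
      refine le_trans ?_ hPB
      apply div_le_div_of_nonneg_left hcL.le (by positivity)
      exact pow_le_pow_left₀ hlz.le hlzL _
    have e2 : 3 / 80 * cL * u / L ^ (4 * K) = (3 / 4 * Z₁) * (X / 20) * (cL / L ^ (4 * K)) / W := by
      rw [hu]
      field_simp
      ring
    rw [e2]
    have hPB0 : 0 ≤ PB := le_trans (by positivity) e1
    have hM0 : 0 ≤ M := by linarith
    have hMP0 : 0 ≤ MP := by linarith
    calc (3 / 4 * Z₁) * (X / 20) * (cL / L ^ (4 * K)) / W ≤ M * MP * PB / W := by gcongr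
      _ ≤ M * MP * PB / φ := by
        apply div_le_div_of_nonneg_left (by positivity) hφ hφW
  -- first error
  have herr1 : (8 + 4 * K) * L ^ 2 * (Z₁ * (X / (W * L ^ (4 * K + 4)))) = (8 + 4 * K) / L ^ 2 * (u / L ^ (4 * K)) := by
    rw [hu, pow_add]
    field_simp
  -- second error
  have herr2 : 18 * L * X ^ (91 / 100 : ℝ) ≤ 1 / L ^ 2 * (u / L ^ (4 * K)) := by
    have e1 : X * Real.exp (-(L / 700)) ≤ u := by
      rw [hu, Real.exp_neg, le_div_iff₀ hW0]
      calc X * (Real.exp (L / 700))⁻¹ * W ≤ X * (Real.exp (L / 700))⁻¹ * Real.exp (L / 700) := by gcongr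
        _ = 1 * X := by field_simp
        _ ≤ Z₁ * X := by gcongr
    have e2 : X * Real.exp (-(L / 700)) = Real.exp (L - L / 700) := by
      rw [Real.exp_sub, Real.exp_neg]
      rw [show Real.exp L = X from Real.exp_log hX0]
      rfl
    have e3 : X ^ (91 / 100 : ℝ) = Real.exp (91 / 100 * L) := by
      rw [Real.rpow_def_of_pos hX0, ← hL]
      congr 1
      ring
    rw [e3, div_mul_div_comm, one_mul, le_div_iff₀ (by positivity)]
    refine le_trans ?_ e1
    rw [e2]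
    calc 18 * L * Real.exp (91 / 100 * L) * (L ^ 2 * L ^ (4 * K)) =
          (18 * L ^ (4 * K + 3)) * Real.exp (91 / 100 * L) := by ring
      _ ≤ Real.exp (8 / 100 * L) * Real.exp (91 / 100 * L) := by gcongr
      _ = Real.exp (99 / 100 * L) := by rw [← Real.exp_add]; congr 1; ring
      _ ≤ Real.exp (L - L / 700) := Real.exp_le_exp.2 (by linarith)
  rw [herr1]
  have hv : 0 < u / L ^ (4 * K) := by positivity
  set v := u / L ^ (4 * K) with hvd
  have e4 : 3 / 80 * cL * u / L ^ (4 * K) = 3 / 80 * cL * v := by rw [hvd]; ring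
  rw [e4] at hmain
  have e5 : (9 + 4 * (K : ℝ)) / L ^ 2 < 3 / 64000 * cL := by
    rw [div_lt_iff₀ (by positivity)]
    rw [div_le_iff₀ (by positivity)] at a3
    have e6 : L ≤ L ^ 2 := by nlinarith
    have e7 : (3 * cL) * L ≤ (3 * cL) * L ^ 2 := by gcongr
    have hK0 : (0 : ℝ) ≤ K := Nat.cast_nonneg K
    nlinarith
  have e8 := mul_lt_mul_of_pos_right e5 hv
  have e9 : (8 + 4 * (K : ℝ)) / L ^ 2 * v + 1 / L ^ 2 * v = (9 + 4 * (K : ℝ)) / L ^ 2 * v := by ring
  calc (8 + 4 * (K : ℝ)) / L ^ 2 * v + 18 * L * X ^ (91 / 100 : ℝ) ≤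
        (8 + 4 * (K : ℝ)) / L ^ 2 * v + 1 / L ^ 2 * v := by linarith
    _ = (9 + 4 * (K : ℝ)) / L ^ 2 * v := e9
    _ < 3 / 64000 * cL * v := e8
    _ = 1 / 800 * (3 / 80 * cL * v) := by ring
    _ ≤ 1 / 800 * (M * MP * PB / φ) := by linarith

end Pool.Agent.N610.AP
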