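import Pool.Agent.N610.AP.Crt
import Pool.Agent.N610.AP.ClsG
import Pool.Agent.TH882.FL

set_option autoImplicit false

/-! # The fundamental lemma for the sequences weighted by the repelling weights -/

open Finset Filter

namespace Pool.Agent.N610.AP

open Pool.Agent.H312R2.RG
open Pool.Agent.H378R2
open Pool.Agent.H378R2.LSBV (QQ mem_QQ)

/-- the sieving primes: all primes up to `2^2^J` outside the big modulus and different from `ps` -/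
noncomputable def PZ (X : ℝ) (S : Finset ℕ) (ps J : ℕ) : Finset ℕ :=
  (Icc 1 (2 ^ 2 ^ J)).filter (fun p => p.Prime ∧ p ∉ PW X S ps ∧ p ≠ ps)

theorem mem_PZ {X : ℝ} {S : Finset ℕ} {ps J p : ℕ} :
    p ∈ PZ X S ps J ↔ p.Prime ∧ p ≤ 2 ^ 2 ^ J ∧ p ∉ PW X S ps ∧ p ≠ ps := by
  unfold PZ
  rw [mem_filter, mem_Icc]
  constructor
  · rintro ⟨⟨_, h1⟩, h2, h3, h4⟩
    exact ⟨h2, h1, h3, h4⟩
  · rintro ⟨h1, h2, h3, h4⟩
    exact ⟨⟨h1.one_lt.le, h2⟩, h1, h3, h4⟩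

/-- the total error dominates the error of the fundamental lemma -/
theorem err_le_tot {K : ℕ} (X : ℝ) (S : Finset ℕ) (ps J E : ℕ) (hps : ps = 1 ∨ ps.Prime)
    (hJ : ((2 ^ 2 ^ J) ^ E : ℕ) ≤ ⌊Real.exp (2 * LL X)⌋₊) (err : ℕ → ℝ) (he : ∀ q, 0 ≤ err q) :
    ∑ T ∈ (PZ X S ps J).powerset.filter (fun T : Finset ℕ => ∏ p ∈ T, p ≤ (2 ^ 2 ^ J) ^ E),
      (K : ℝ) ^ T.card * err (∏ p ∈ T, p) ≤ tot K X (WW X S ps) ps err := by
  classical
  unfold tot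
  have hT : ∀ T ∈ (PZ X S ps J).powerset.filter (fun T : Finset ℕ => ∏ p ∈ T, p ≤ (2 ^ 2 ^ J) ^ E),
      (∀ p ∈ T, p.Prime ∧ p ∉ PW X S ps ∧ p ≠ ps) ∧ ∏ p ∈ T, p ≤ (2 ^ 2 ^ J) ^ E := by
    intro T hT
    rw [mem_filter, mem_powerset] at hT
    exact ⟨fun p hp => ⟨(mem_PZ.1 (hT.1 hp)).1, (mem_PZ.1 (hT.1 hp)).2.2⟩, hT.2⟩
  have hpf : ∀ T : Finset ℕ, (∀ p ∈ T, p.Prime ∧ p ∉ PW X S ps ∧ p ≠ ps) → (∏ p ∈ T, p).primeFactors = T :=
    fun T hT => Nat.primeFactors_prod fun p hp => (hT p hp).1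
  have hsq : ∀ T : Finset ℕ, (∀ p ∈ T, p.Prime ∧ p ∉ PW X S ps ∧ p ≠ ps) → Squarefree (∏ p ∈ T, p) :=
    fun T hT => prod_primes_sqfree T fun p hp => (hT p hp).1
  have h1 : ∀ T ∈ (PZ X S ps J).powerset.filter (fun T : Finset ℕ => ∏ p ∈ T, p ≤ (2 ^ 2 ^ J) ^ E),
      (K : ℝ) ^ T.card * err (∏ p ∈ T, p) ≤
        (fun q : ℕ => (q.divisors.card : ℝ) ^ (2 * K) * err q) (∏ p ∈ T, p) := by
    intro T hT'
    obtain ⟨hTp, hTl⟩ := hT T hT'
    show _ ≤ ((∏ p ∈ T, p).divisors.card : ℝ) ^ (2 * K) * err (∏ p ∈ T, p)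
    apply mul_le_mul_of_nonneg_right _ (he _)
    have hd : ((∏ p ∈ T, p).divisors.card : ℕ) = 2 ^ T.card := (prod_primes T fun p hp => (hTp p hp).1).1
    rw [hd]
    push_cast
    have h2 : (K : ℝ) ≤ 2 ^ K := by exact_mod_cast Nat.lt_two_pow_self.le
    calc (K : ℝ) ^ T.card ≤ (2 ^ K) ^ T.card := pow_le_pow_left₀ (Nat.cast_nonneg _) h2 _
      _ = (2 ^ T.card) ^ K := by rw [← pow_mul, ← pow_mul, mul_comm]
      _ ≤ (2 ^ T.card) ^ (2 * K) := pow_le_pow_right₀ (one_le_pow₀ (by norm_num)) (by omega)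
  refine (sum_le_sum h1).trans ?_
  rw [← sum_image (f := fun q : ℕ => (q.divisors.card : ℝ) ^ (2 * K) * err q)
    (g := fun T : Finset ℕ => ∏ p ∈ T, p)]
  · apply sum_le_sum_of_subset_of_nonneg
    · intro q hq
      rw [mem_image] at hq
      obtain ⟨T, hT', rfl⟩ := hq
      obtain ⟨hTp, hTl⟩ := hT T hT'
      rw [mem_QQ]
      refine ⟨⟨prod_pos fun p hp => (hTp p hp).1.pos, hTl.trans hJ⟩, hsq T hTp, ?_⟩
      rw [Nat.coprime_prod_left_iff]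
      intro p hp
      obtain ⟨h1, h2, h3⟩ := hTp p hp
      rw [Nat.Prime.coprime_iff_not_dvd h1]
      intro hd
      rcases (Nat.Prime.dvd_mul h1).1 hd with hd | hd
      · exact h2 ((prime_dvd_WW h1).1 hd)
      · rcases hps with h | h
        · rw [h] at hd
          exact h1.one_lt.ne' (Nat.dvd_one.1 hd)
        · exact h3 ((Nat.prime_dvd_prime_iff_eq h1 h).1 hd)
    · intro q _ _
      have := he q
      positivity
  · intro T hT1 T' hT2 he'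
    have e1 := hpf T (hT T hT1).1
    have e2 := hpf T' (hT T' hT2).1
    rw [← e1, ← e2]
    exact congrArg Nat.primeFactors he'

/-- elements of `QQ` from sets of sieving primes -/
theorem prod_mem_QQ (X : ℝ) (S : Finset ℕ) (ps J E : ℕ) (hps : ps = 1 ∨ ps.Prime)
    (hJ : ((2 ^ 2 ^ J) ^ E : ℕ) ≤ ⌊Real.exp (2 * LL X)⌋₊) (T : Finset ℕ) (hT : T ⊆ PZ X S ps J)
    (hTl : ∏ p ∈ T, p ≤ (2 ^ 2 ^ J) ^ E) : ∏ p ∈ T, p ∈ QQ (WW X S ps) ps ⌊Real.exp (2 * LL X)⌋₊ := by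
  rw [mem_QQ]
  refine ⟨⟨prod_pos fun p hp => (mem_PZ.1 (hT hp)).1.pos, hTl.trans hJ⟩, ?_, ?_⟩
  · exact prod_primes_sqfree T fun p hp => (mem_PZ.1 (hT hp)).1
  · rw [Nat.coprime_prod_left_iff]
    intro p hp
    obtain ⟨h1, _, h2, h3⟩ := mem_PZ.1 (hT hp)
    rw [Nat.Prime.coprime_iff_not_dvd h1]
    intro hd
    rcases (Nat.Prime.dvd_mul h1).1 hd with hd | hd
    · exact h2 ((prime_dvd_WW h1).1 hd)
    · rcases hps with h | h
      · rw [h] at hd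
        exact h1.one_lt.ne' (Nat.dvd_one.1 hd)
      · exact h3 ((Nat.prime_dvd_prime_iff_eq h1 h).1 hd)

/-- the sifted sum over the primes of the class -/
theorem siftB (K : ℕ) : ∃ C0 : ℕ, 1 ≤ C0 ∧ ∀ (b J : ℕ) (X : ℝ) (ps : ℕ) (S : Finset ℕ), C0 ≤ b →
    (ps = 1 ∨ ps.Prime) → (∀ p ∈ PZ X S ps J, C0 < p) →
    ((2 ^ 2 ^ J) ^ (C0 * b) : ℕ) ≤ ⌊Real.exp (2 * LL X)⌋₊ →
    ∀ (t : Fin K → ℕ) (i : Fin K) (r : ℕ), (r + t i).Coprime (WW X S ps) →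
    ∀ (V : ℤ → ℝ) (M' : ℝ) (e₃ : ℕ → ℝ), (∀ a, 0 ≤ V a) → 0 ≤ M' → (∀ q, 0 ≤ e₃ q) → 
    ClassB X (WW X S ps) ps t i V M' e₃ →
    |∑ n ∈ ((Icc 1 ⌊3 * X⌋₊).filter (fun n => n ≡ r + t i [MOD WW X S ps])).filter
        (fun n => ∀ p ∈ PZ X S ps J, n % p ∉ OmB t i p),
        Phi (n / X) * ArithmeticFunction.vonMangoldt n * V ((n : ℤ) - t i) -
      M' * (LPhi X * (1 / (WW X S ps).totient)) *
        ∏ p ∈ PZ X S ps J, (1 - ((OmB t i p).card : ℝ) * (1 / ((p : ℝ) - 1)))| ≤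
    (1 / 2 : ℝ) ^ b * (M' * (LPhi X * (1 / (WW X S ps).totient)) *
        ∏ p ∈ PZ X S ps J, (1 - ((OmB t i p).card : ℝ) * (1 / ((p : ℝ) - 1)))) +
      ((J : ℝ) + 2) * tot K X (WW X S ps) ps e₃ := by
  classical
  obtain ⟨C0, hC0, H⟩ := Pool.Agent.TH882.FL.fla K
  refine ⟨C0, hC0, ?_⟩
  intro b J X ps S hb hps hPZ hJ t i r hr V M' e₃ hV hM' he₃ hB
  set W := WW X S ps with hW
  have hWpos : 0 < W := WW_pos X S ps
  have hLnn : 0 ≤ LPhi X := by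
    unfold LPhi
    exact Finset.sum_nonneg fun n _ => mul_nonneg (Phi_nonneg _) ArithmeticFunction.vonMangoldt_nonneg
  have key := H b J C0 (PZ X S ps J) (fun p => 1 / ((p : ℝ) - 1)) (fun p => OmB t i p) hb le_rfl
    (fun p hp => ⟨(mem_PZ.1 hp).1, hPZ p hp, (mem_PZ.1 hp).2.1⟩) (fun p _ => card_OmB_le t i p)
    (fun p hp => by
      have h1 : (2 : ℝ) ≤ p := by exact_mod_cast (mem_PZ.1 hp).1.two_le
      exact ⟨by apply div_nonneg <;> linarith, le_rfl⟩)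
    ((Icc 1 ⌊3 * X⌋₊).filter (fun n => n ≡ r + t i [MOD W]))
    (fun n => Phi (n / X) * ArithmeticFunction.vonMangoldt n * V ((n : ℤ) - t i))
    (M' * (LPhi X * (1 / W.totient))) e₃
    (fun n _ => mul_nonneg (mul_nonneg (Phi_nonneg _) ArithmeticFunction.vonMangoldt_nonneg) (hV _))
    (by positivity) he₃
    (by
      intro T hT hTl c hc
      have hTp : ∀ p ∈ T, p.Prime := fun p hp => (mem_PZ.1 (hT hp)).1
      have hTW : ∀ p ∈ T, ¬ p ∣ W := fun p hp hd => (mem_PZ.1 (hT hp)).2.2.1 ((prime_dvd_WW (hTp p hp)).1 hd)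
      have hcc : ∀ p ∈ T, c p ≠ 0 ∧ c p < p ∧ ∃ l, l ≠ i ∧ c p = dres p (t i) (t l) := fun p hp =>
        mem_OmB t i p (c p) (hTp p hp).pos (hc p hp)
      obtain ⟨b', hb'⟩ := crt_class W (r + t i) T c (fun p hp => ⟨hTp p hp, hTW p hp⟩)
        (fun p hp => (hcc p hp).2.1)
      obtain ⟨hb1, hb2⟩ := (hb' b').2 (Nat.ModEq.refl _)
      have hset : ((Icc 1 ⌊3 * X⌋₊).filter (fun n => n ≡ r + t i [MOD W])).filter (fun n => ∀ p ∈ T, n % p = c p) =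
          (Icc 1 ⌊3 * X⌋₊).filter (fun n => n ≡ b' [MOD W * ∏ p ∈ T, p]) := by
        rw [filter_filter]
        apply filter_congr
        intro n _
        exact hb' n
      have hcop : b'.Coprime (W * ∏ p ∈ T, p) := by
        rw [Nat.coprime_mul_iff_right]
        constructor
        · have h1 : Nat.gcd b' W = Nat.gcd (r + t i) W := hb1.gcd_eq
          show Nat.gcd b' W = 1
          rw [h1]
          exact hr
        · rw [Nat.coprime_prod_right_iff]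
          intro p hp
          rw [Nat.coprime_comm, Nat.Prime.coprime_iff_not_dvd (hTp p hp)]
          intro hd
          apply (hcc p hp).1
          rw [← hb2 p hp]
          exact Nat.mod_eq_zero_of_dvd hd
      have h2 := hB (∏ p ∈ T, p) b' (prod_mem_QQ X S ps J (C0 * b) hps hJ T hT hTl) hcop (by
        intro p hp hd
        obtain ⟨q, hq, hpq⟩ := (Prime.dvd_finsetProd_iff hp.prime _).1 hd
        have hpq' := (Nat.prime_dvd_prime_iff_eq hp (hTp q hq)).1 hpq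
        rw [← hpq'] at hq
        obtain ⟨h3, h4, l, h5, h6⟩ := hcc p hq
        refine ⟨l, h5, ?_⟩
        exact (mod_eq_dres p (t i) (t l) b' hp.pos).1 ((hb2 p hq).trans h6))
      rw [hset]
      have h3 : (((∏ p ∈ T, p).totient : ℕ) : ℝ) = ∏ p ∈ T, ((p : ℝ) - 1) := totient_primes T hTp
      have h4 : (1 : ℝ) / ((∏ p ∈ T, p).totient : ℝ) = ∏ p ∈ T, (1 / ((p : ℝ) - 1)) := by
        rw [h3, Finset.prod_div_distrib, Finset.prod_const_one]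
      rw [← h4]
      exact h2)
  refine key.trans ?_
  have h5 := err_le_tot (K := K) X S ps J (C0 * b) hps hJ e₃ he₃
  have h6 : (0 : ℝ) ≤ (J : ℝ) + 2 := by positivity
  have h7 := mul_le_mul_of_nonneg_left h5 h6
  linarith

/-- the sifted sum over the integers of a class modulo `W g` -/
theorem siftA (K : ℕ) : ∃ C0 : ℕ, 1 ≤ C0 ∧ ∀ (b J : ℕ) (X : ℝ) (ps : ℕ) (S : Finset ℕ), C0 ≤ b →
    ps.Prime → (∀ p ∈ PZ X S ps J, C0 < p) →
    ((2 ^ 2 ^ J) ^ (C0 * b) : ℕ) ≤ ⌊Real.exp (2 * LL X)⌋₊ →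
    ∀ (t : Fin K → ℕ) (r : ℕ),
    ∀ (V : ℤ → ℝ) (M : ℝ) (e₁ : ℕ → ℝ), (∀ a, 0 ≤ V a) → 0 ≤ M → (∀ q, 0 ≤ e₁ q) → 
    ClassAg X (WW X S ps) ps ps t V M e₁ →
    ∑ n ∈ ((Icc 1 ⌊3 * X⌋₊).filter (fun n => n ≡ r [MOD WW X S ps * ps])).filter
        (fun n => ∀ p ∈ PZ X S ps J, n % p ∉ OmA t p), Phi (n / X) * V (n : ℤ) ≤
    (1 + (1 / 2 : ℝ) ^ b) * (M * (MPhi X * (1 / ((WW X S ps : ℝ) * ps))) *
        ∏ p ∈ PZ X S ps J, (1 - ((OmA t p).card : ℝ) * (1 / (p : ℝ)))) +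
      ((J : ℝ) + 2) * tot K X (WW X S ps) ps e₁ := by
  classical
  obtain ⟨C0, hC0, H⟩ := Pool.Agent.TH882.FL.fla K
  refine ⟨C0, hC0, ?_⟩
  intro b J X ps S hb hps hPZ hJ t r V M e₁ hV hM he₁ hA
  set W := WW X S ps with hW
  have hWpos : 0 < W := WW_pos X S ps
  have hMnn : 0 ≤ MPhi X := by
    unfold MPhi
    exact Finset.sum_nonneg fun n _ => Phi_nonneg _
  have key := H b J C0 (PZ X S ps J) (fun p => 1 / (p : ℝ)) (fun p => OmA t p) hb le_rfl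
    (fun p hp => ⟨(mem_PZ.1 hp).1, hPZ p hp, (mem_PZ.1 hp).2.1⟩) (fun p _ => card_OmA_le t p)
    (fun p hp => by
      have h1 : (2 : ℝ) ≤ p := by exact_mod_cast (mem_PZ.1 hp).1.two_le
      refine ⟨by positivity, ?_⟩
      apply one_div_le_one_div_of_le <;> linarith)
    ((Icc 1 ⌊3 * X⌋₊).filter (fun n => n ≡ r [MOD W * ps]))
    (fun n => Phi (n / X) * V (n : ℤ))
    (M * (MPhi X * (1 / ((W : ℝ) * ps)))) e₁
    (fun n _ => mul_nonneg (Phi_nonneg _) (hV _))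
    (by positivity) he₁
    (by
      intro T hT hTl c hc
      have hTp : ∀ p ∈ T, p.Prime := fun p hp => (mem_PZ.1 (hT hp)).1
      have hTW : ∀ p ∈ T, ¬ p ∣ W * ps := by
        intro p hp hd
        rcases (Nat.Prime.dvd_mul (hTp p hp)).1 hd with hd | hd
        · exact (mem_PZ.1 (hT hp)).2.2.1 ((prime_dvd_WW (hTp p hp)).1 hd)
        · exact (mem_PZ.1 (hT hp)).2.2.2 ((Nat.prime_dvd_prime_iff_eq (hTp p hp) hps).1 hd)
      have hcc : ∀ p ∈ T, ∃ l, c p = dres p 0 (t l) := by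
        intro p hp
        have := hc p hp
        simp only [OmA, mem_image] at this
        obtain ⟨l, _, h⟩ := this
        exact ⟨l, h.symm⟩
      obtain ⟨b', hb'⟩ := crt_class (W * ps) r T c (fun p hp => ⟨hTp p hp, hTW p hp⟩)
        (fun p hp => by
          obtain ⟨l, hl⟩ := hcc p hp
          rw [hl]
          exact dres_lt p 0 _ (hTp p hp).pos)
      obtain ⟨hb1, hb2⟩ := (hb' b').2 (Nat.ModEq.refl _)
      have hset : ((Icc 1 ⌊3 * X⌋₊).filter (fun n => n ≡ r [MOD W * ps])).filter (fun n => ∀ p ∈ T, n % p = c p) =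
          (Icc 1 ⌊3 * X⌋₊).filter (fun n => n ≡ b' [MOD W * ps * ∏ p ∈ T, p]) := by
        rw [filter_filter]
        apply filter_congr
        intro n _
        exact hb' n
      have h2 := hA (∏ p ∈ T, p) b' (prod_mem_QQ X S ps J (C0 * b) (Or.inr hps) hJ T hT hTl) (by
        intro p hp hd
        obtain ⟨q, hq, hpq⟩ := (Prime.dvd_finsetProd_iff hp.prime _).1 hd
        have hpq' := (Nat.prime_dvd_prime_iff_eq hp (hTp q hq)).1 hpq
        rw [← hpq'] at hq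
        obtain ⟨l, h6⟩ := hcc p hq
        refine ⟨l, ?_⟩
        have h7 := (mod_eq_dres p 0 (t l) b' hp.pos).1 ((hb2 p hq).trans h6)
        simpa using h7)
      rw [hset]
      have h4 : (1 : ℝ) / ((∏ p ∈ T, p : ℕ) : ℝ) = ∏ p ∈ T, (1 / (p : ℝ)) := by
        push_cast
        rw [Finset.prod_div_distrib, Finset.prod_const_one]
      rw [← h4]
      exact h2)
  have h5 := err_le_tot (K := K) X S ps J (C0 * b) (Or.inr hps) hJ e₁ he₁
  have h6 : (0 : ℝ) ≤ (J : ℝ) + 2 := by positivity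
  have h7 := mul_le_mul_of_nonneg_left h5 h6
  have h8 := (abs_le.1 key).2
  have h9 : ∑ n ∈ ((Icc 1 ⌊3 * X⌋₊).filter (fun n => n ≡ r [MOD W * ps])).filter
        (fun n => ∀ p ∈ PZ X S ps J, n % p ∉ OmA t p), Phi (n / X) * V (n : ℤ) ≤ 
      M * (MPhi X * (1 / ((W : ℝ) * ps))) * ∏ p ∈ PZ X S ps J, (1 - ((OmA t p).card : ℝ) * (1 / (p : ℝ))) +
      ((1 / 2 : ℝ) ^ b * (M * (MPhi X * (1 / ((W : ℝ) * ps))) *
        ∏ p ∈ PZ X S ps J, (1 - ((OmA t p).card : ℝ) * (1 / (p : ℝ)))) +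
      ((J : ℝ) + 2) * ∑ T ∈ (PZ X S ps J).powerset.filter (fun T : Finset ℕ => ∏ p ∈ T, p ≤ (2 ^ 2 ^ J) ^ (C0 * b)),
      (K : ℝ) ^ T.card * e₁ (∏ p ∈ T, p)) := by
    have := h8
    linarith
  refine h9.trans ?_
  linarith

end Pool.Agent.N610.AP
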